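import Pool.Graph.R_pool_sql_team_seeded_3997aac3.Q131.Perc.Base

/-!
Closures under the 2-neighbour rule in the square lattice: rectangles, merging, decomposition.
-/

set_option autoImplicit false

namespace Pool.Agent.H86.Perc

open Pool.Agent.Q131.Perc

/-- the closure of a set of sites under the 2-neighbour rule -/
def cl (A : Set (ℤ × ℤ)) : Set (ℤ × ℤ) := {v | ∀ S : Set (ℤ × ℤ), Closed S → A ⊆ S → v ∈ S}

theorem closed_cl (A : Set (ℤ × ℤ)) : Closed (cl A) := by
  intro u v w h1 h2 hne hu hw S hS hA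
  exact hS u v w h1 h2 hne (hu S hS hA) (hw S hS hA)

theorem subset_cl (A : Set (ℤ × ℤ)) : A ⊆ cl A := fun _ hv _ _ hA => hA hv

theorem cl_min {A S : Set (ℤ × ℤ)} (hS : Closed S) (h : A ⊆ S) : cl A ⊆ S := fun _ hv => hv S hS h

theorem cl_mono {A B : Set (ℤ × ℤ)} (h : A ⊆ B) : cl A ⊆ cl B :=
  cl_min (closed_cl B) (h.trans (subset_cl B))

theorem adj_mk {u1 u2 v1 v2 : ℤ} (h : (u1 = v1 ∧ (u2 + 1 = v2 ∨ v2 + 1 = u2)) ∨
    (u2 = v2 ∧ (u1 + 1 = v1 ∨ v1 + 1 = u1))) : Adj (u1, u2) (v1, v2) := h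

theorem mk_ne {u1 u2 v1 v2 : ℤ} (h : u1 ≠ v1 ∨ u2 ≠ v2) : (u1, u2) ≠ (v1, v2) := by
  intro e
  rw [Prod.mk.injEq] at e
  omega

theorem up1 {S : Set (ℤ × ℤ)} (hS : Closed S) {a b c d j : ℤ} (hab : a ≤ b)
    (hR : Rect a b c d ⊆ S) (h1 : c ≤ j) (h2 : j ≤ d) (hv : (b + 1, j) ∈ S) :
    Rect a (b + 1) c d ⊆ S := by
  have key := row_above hS (x := b) (a := c) (b := d) (r := j) h1 h2
    (fun t h3 h4 => hR (mem_Rect.mpr ⟨hab, le_refl _, h3, h4⟩)) hv
  rintro ⟨x, y⟩ hxy
  rw [mem_Rect] at hxy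
  rcases eq_or_lt_of_le hxy.2.1 with h | h
  · rw [h]
    exact key y hxy.2.2.1 hxy.2.2.2
  · exact hR (mem_Rect.mpr (by omega))

theorem down1 {S : Set (ℤ × ℤ)} (hS : Closed S) {a b c d j : ℤ} (hab : a ≤ b)
    (hR : Rect a b c d ⊆ S) (h1 : c ≤ j) (h2 : j ≤ d) (hv : (a - 1, j) ∈ S) :
    Rect (a - 1) b c d ⊆ S := by
  have key := row_below hS (x := a) (a := c) (b := d) (r := j) h1 h2
    (fun t h3 h4 => hR (mem_Rect.mpr ⟨le_refl _, hab, h3, h4⟩)) hv
  rintro ⟨x, y⟩ hxy
  rw [mem_Rect] at hxy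
  rcases eq_or_lt_of_le hxy.1 with h | h
  · rw [← h]
    exact key y hxy.2.2.1 hxy.2.2.2
  · exact hR (mem_Rect.mpr (by omega))

theorem right1 {S : Set (ℤ × ℤ)} (hS : Closed S) {a b c d i : ℤ} (hcd : c ≤ d)
    (hR : Rect a b c d ⊆ S) (h1 : a ≤ i) (h2 : i ≤ b) (hv : (i, d + 1) ∈ S) :
    Rect a b c (d + 1) ⊆ S := by
  have key := col_right hS (x := d) (a := a) (b := b) (r := i) h1 h2
    (fun t h3 h4 => hR (mem_Rect.mpr ⟨h3, h4, hcd, le_refl _⟩)) hv
  rintro ⟨x, y⟩ hxy
  rw [mem_Rect] at hxy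
  rcases eq_or_lt_of_le hxy.2.2.2 with h | h
  · rw [h]
    exact key x hxy.1 hxy.2.1
  · exact hR (mem_Rect.mpr (by omega))

theorem left1 {S : Set (ℤ × ℤ)} (hS : Closed S) {a b c d i : ℤ} (hcd : c ≤ d)
    (hR : Rect a b c d ⊆ S) (h1 : a ≤ i) (h2 : i ≤ b) (hv : (i, c - 1) ∈ S) :
    Rect a b (c - 1) d ⊆ S := by
  have key := col_left hS (x := c) (a := a) (b := b) (r := i) h1 h2
    (fun t h3 h4 => hR (mem_Rect.mpr ⟨h3, h4, le_refl _, hcd⟩)) hv
  rintro ⟨x, y⟩ hxy
  rw [mem_Rect] at hxy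
  rcases eq_or_lt_of_le hxy.2.2.1 with h | h
  · rw [← h]
    exact key x hxy.1 hxy.2.1
  · exact hR (mem_Rect.mpr (by omega))

/-- growth of a rectangle by a site at distance at most `2` -/
theorem grow {S : Set (ℤ × ℤ)} (hS : Closed S) {a b c d i j : ℤ} (hab : a ≤ b) (hcd : c ≤ d)
    (hR : Rect a b c d ⊆ S) (hv : (i, j) ∈ S)
    (hd : max (max (a - i) (i - b)) 0 + max (max (c - j) (j - d)) 0 ≤ 2) :
    Rect (min a i) (max b i) (min c j) (max d j) ⊆ S := by
  have fin : ∀ {a' b' c' d' : ℤ}, Rect a' b' c' d' ⊆ S → a' ≤ min a i → max b i ≤ b' →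
      c' ≤ min c j → max d j ≤ d' → Rect (min a i) (max b i) (min c j) (max d j) ⊆ S := by
    intro a' b' c' d' h h1 h2 h3 h4
    rintro ⟨x, y⟩ hxy
    rw [mem_Rect] at hxy
    exact h (mem_Rect.mpr (by omega))
  have adj : ∀ {u1 u2 v1 v2 w1 w2 : ℤ}, (u1, u2) ∈ S → (w1, w2) ∈ S → Adj (u1, u2) (v1, v2) →
      Adj (w1, w2) (v1, v2) → (u1, u2) ≠ (w1, w2) → (v1, v2) ∈ S := by
    intro u1 u2 v1 v2 w1 w2 h1 h2 h3 h4 h5
    exact hS _ _ _ h3 h4 h5 h1 h2
  rcases lt_or_ge i a with hi | hi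
  · -- below
    rcases lt_or_ge j c with hj | hj
    · obtain rfl : i = a - 1 := by omega
      obtain rfl : j = c - 1 := by omega
      have h1 : (a - 1, c) ∈ S := adj (u1 := a) (u2 := c) (w1 := a - 1) (w2 := c - 1)
        (hR (mem_Rect.mpr (by omega))) hv (adj_mk (by omega)) (adj_mk (by omega)) (mk_ne (by omega))
      have h2 := down1 hS hab hR (le_refl c) hcd h1
      exact fin (left1 hS hcd h2 (i := a - 1) (by omega) (by omega) hv) (by omega) (by omega)
        (by omega) (by omega)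
    · rcases lt_or_ge d j with hj' | hj'
      · obtain rfl : i = a - 1 := by omega
        obtain rfl : j = d + 1 := by omega
        have h1 : (a - 1, d) ∈ S := adj (u1 := a) (u2 := d) (w1 := a - 1) (w2 := d + 1)
          (hR (mem_Rect.mpr (by omega))) hv (adj_mk (by omega)) (adj_mk (by omega)) (mk_ne (by omega))
        have h2 := down1 hS hab hR hcd (le_refl d) h1
        exact fin (right1 hS hcd h2 (i := a - 1) (by omega) (by omega) hv) (by omega) (by omega)
          (by omega) (by omega)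
      · have hi2 : i = a - 1 ∨ i = a - 2 := by omega
        rcases hi2 with rfl | rfl
        · exact fin (down1 hS hab hR hj hj' hv) (by omega) (by omega) (by omega) (by omega)
        · have h1 : (a - 1, j) ∈ S := adj (u1 := a) (u2 := j) (w1 := a - 2) (w2 := j)
            (hR (mem_Rect.mpr (by omega))) hv (adj_mk (by omega)) (adj_mk (by omega))
            (mk_ne (by omega))
          have h2 := down1 hS hab hR hj hj' h1
          have h3 : (a - 1 - 1, j) ∈ S := by
            have : a - 1 - 1 = a - 2 := by ring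
            rw [this]; exact hv
          exact fin (down1 hS (by omega) h2 hj hj' h3) (by omega) (by omega) (by omega) (by omega)
  · rcases lt_or_ge b i with hi' | hi'
    · -- above
      rcases lt_or_ge j c with hj | hj
      · obtain rfl : i = b + 1 := by omega
        obtain rfl : j = c - 1 := by omega
        have h1 : (b + 1, c) ∈ S := adj (u1 := b) (u2 := c) (w1 := b + 1) (w2 := c - 1)
          (hR (mem_Rect.mpr (by omega))) hv (adj_mk (by omega)) (adj_mk (by omega)) (mk_ne (by omega))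
        have h2 := up1 hS hab hR (le_refl c) hcd h1
        exact fin (left1 hS hcd h2 (i := b + 1) (by omega) (by omega) hv) (by omega) (by omega)
          (by omega) (by omega)
      · rcases lt_or_ge d j with hj' | hj'
        · obtain rfl : i = b + 1 := by omega
          obtain rfl : j = d + 1 := by omega
          have h1 : (b + 1, d) ∈ S := adj (u1 := b) (u2 := d) (w1 := b + 1) (w2 := d + 1)
            (hR (mem_Rect.mpr (by omega))) hv (adj_mk (by omega)) (adj_mk (by omega)) (mk_ne (by omega))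
          have h2 := up1 hS hab hR hcd (le_refl d) h1
          exact fin (right1 hS hcd h2 (i := b + 1) (by omega) (by omega) hv) (by omega) (by omega)
            (by omega) (by omega)
        · have hi2 : i = b + 1 ∨ i = b + 2 := by omega
          rcases hi2 with rfl | rfl
          · exact fin (up1 hS hab hR hj hj' hv) (by omega) (by omega) (by omega) (by omega)
          · have h1 : (b + 1, j) ∈ S := adj (u1 := b) (u2 := j) (w1 := b + 2) (w2 := j)
              (hR (mem_Rect.mpr (by omega))) hv (adj_mk (by omega)) (adj_mk (by omega))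
              (mk_ne (by omega))
            have h2 := up1 hS hab hR hj hj' h1
            have h3 : (b + 1 + 1, j) ∈ S := by
              have : b + 1 + 1 = b + 2 := by ring
              rw [this]; exact hv
            exact fin (up1 hS (by omega) h2 hj hj' h3) (by omega) (by omega) (by omega) (by omega)
    · -- same rows
      rcases lt_or_ge j c with hj | hj
      · have hj2 : j = c - 1 ∨ j = c - 2 := by omega
        rcases hj2 with rfl | rfl
        · exact fin (left1 hS hcd hR hi hi' hv) (by omega) (by omega) (by omega) (by omega)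
        · have h1 : (i, c - 1) ∈ S := adj (u1 := i) (u2 := c) (w1 := i) (w2 := c - 2)
            (hR (mem_Rect.mpr (by omega))) hv (adj_mk (by omega)) (adj_mk (by omega))
            (mk_ne (by omega))
          have h2 := left1 hS hcd hR hi hi' h1
          have h3 : (i, c - 1 - 1) ∈ S := by
            have : c - 1 - 1 = c - 2 := by ring
            rw [this]; exact hv
          exact fin (left1 hS (by omega) h2 hi hi' h3) (by omega) (by omega) (by omega) (by omega)
      · rcases lt_or_ge d j with hj' | hj'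
        · have hj2 : j = d + 1 ∨ j = d + 2 := by omega
          rcases hj2 with rfl | rfl
          · exact fin (right1 hS hcd hR hi hi' hv) (by omega) (by omega) (by omega) (by omega)
          · have h1 : (i, d + 1) ∈ S := adj (u1 := i) (u2 := d) (w1 := i) (w2 := d + 2)
              (hR (mem_Rect.mpr (by omega))) hv (adj_mk (by omega)) (adj_mk (by omega))
              (mk_ne (by omega))
            have h2 := right1 hS hcd hR hi hi' h1
            have h3 : (i, d + 1 + 1) ∈ S := by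
              have : d + 1 + 1 = d + 2 := by ring
              rw [this]; exact hv
            exact fin (right1 hS (by omega) h2 hi hi' h3) (by omega) (by omega) (by omega) (by omega)
        · exact fin hR (by omega) (by omega) (by omega) (by omega)

theorem vert {S : Set (ℤ × ℤ)} (hS : Closed S) {a b c d i j : ℤ} (hi : a ≤ i) (hi' : i ≤ b)
    (hj : c ≤ j) (hj' : j ≤ d) (hR : Rect a b c d ⊆ S) :
    ∀ n : ℕ, ∀ t : ℤ, t - i ≤ n → i - t ≤ n → (∀ s, min i t ≤ s → s ≤ max i t → (s, j) ∈ S) →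
      Rect (min a t) (max b t) c d ⊆ S := by
  intro n
  induction n with
  | zero =>
    intro t h1 h2 _
    rintro ⟨x, y⟩ hxy
    rw [mem_Rect] at hxy
    push_cast at h1 h2
    exact hR (mem_Rect.mpr (by omega))
  | succ n ih =>
    intro t h1 h2 h3
    push_cast at h1 h2
    rcases lt_trichotomy t i with h | h | h
    · have h4 := ih (t + 1) (by omega) (by omega) (fun s h5 h6 => h3 s (by omega) (by omega))
      have h5 := grow hS (by omega) (by omega) h4 (h3 t (by omega) (by omega)) (by omega)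
      rintro ⟨x, y⟩ hxy
      rw [mem_Rect] at hxy
      exact h5 (mem_Rect.mpr (by omega))
    · subst h
      rintro ⟨x, y⟩ hxy
      rw [mem_Rect] at hxy
      exact hR (mem_Rect.mpr (by omega))
    · have h4 := ih (t - 1) (by omega) (by omega) (fun s h5 h6 => h3 s (by omega) (by omega))
      have h5 := grow hS (by omega) (by omega) h4 (h3 t (by omega) (by omega)) (by omega)
      rintro ⟨x, y⟩ hxy
      rw [mem_Rect] at hxy
      exact h5 (mem_Rect.mpr (by omega))

theorem horz {S : Set (ℤ × ℤ)} (hS : Closed S) {a b c d i j : ℤ} (hi : a ≤ i) (hi' : i ≤ b)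
    (hj : c ≤ j) (hj' : j ≤ d) (hR : Rect a b c d ⊆ S) :
    ∀ n : ℕ, ∀ t : ℤ, t - j ≤ n → j - t ≤ n → (∀ s, min j t ≤ s → s ≤ max j t → (i, s) ∈ S) →
      Rect a b (min c t) (max d t) ⊆ S := by
  intro n
  induction n with
  | zero =>
    intro t h1 h2 _
    rintro ⟨x, y⟩ hxy
    rw [mem_Rect] at hxy
    push_cast at h1 h2
    exact hR (mem_Rect.mpr (by omega))
  | succ n ih =>
    intro t h1 h2 h3
    push_cast at h1 h2
    rcases lt_trichotomy t j with h | h | h
    · have h4 := ih (t + 1) (by omega) (by omega) (fun s h5 h6 => h3 s (by omega) (by omega))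
      have h5 := grow hS (by omega) (by omega) h4 (h3 t (by omega) (by omega)) (by omega)
      rintro ⟨x, y⟩ hxy
      rw [mem_Rect] at hxy
      exact h5 (mem_Rect.mpr (by omega))
    · subst h
      rintro ⟨x, y⟩ hxy
      rw [mem_Rect] at hxy
      exact hR (mem_Rect.mpr (by omega))
    · have h4 := ih (t - 1) (by omega) (by omega) (fun s h5 h6 => h3 s (by omega) (by omega))
      have h5 := grow hS (by omega) (by omega) h4 (h3 t (by omega) (by omega)) (by omega)
      rintro ⟨x, y⟩ hxy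
      rw [mem_Rect] at hxy
      exact h5 (mem_Rect.mpr (by omega))

/-- merging of two rectangles which are not far -/
theorem rect_merge {S : Set (ℤ × ℤ)} (hS : Closed S) {a b c d a' b' c' d' : ℤ}
    (hab : a ≤ b) (hcd : c ≤ d) (h1 : Rect a b c d ⊆ S) (h2 : Rect a' b' c' d' ⊆ S)
    (near : ¬ Far (Rect a b c d) (Rect a' b' c' d')) :
    Rect (min a a') (max b b') (min c c') (max d d') ⊆ S := by
  simp only [Far, not_forall, not_le] at near
  obtain ⟨⟨u1, u2⟩, hu, ⟨i, j⟩, hv, hd⟩ := near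
  have hv' := hv
  rw [mem_Rect] at hu hv'
  simp only at hd
  have hd1 : u1 - i ≤ |u1 - i| := le_abs_self _
  have hd2 : i - u1 ≤ |u1 - i| := by have := neg_le_abs (u1 - i); linarith
  have hd3 : u2 - j ≤ |u2 - j| := le_abs_self _
  have hd4 : j - u2 ≤ |u2 - j| := by have := neg_le_abs (u2 - j); linarith
  have hd5 : 0 ≤ |u1 - i| := abs_nonneg _
  have hd6 : 0 ≤ |u2 - j| := abs_nonneg _
  generalize |u1 - i| = e1 at *
  generalize |u2 - j| = e2 at *
  have g0 := grow hS hab hcd h1 (h2 hv) (by omega)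
  have hcol : ∀ s, a' ≤ s → s ≤ b' → (s, j) ∈ S := fun s h3 h4 => h2 (mem_Rect.mpr (by omega))
  have hrow : ∀ s, c' ≤ s → s ≤ d' → (i, s) ∈ S := fun s h3 h4 => h2 (mem_Rect.mpr (by omega))
  have g1 := vert hS (i := i) (j := j) (by omega) (by omega) (by omega) (by omega) g0
    (b' - i).toNat b' (by omega) (by omega) (fun s h3 h4 => hcol s (by omega) (by omega))
  have g2 := vert hS (i := i) (j := j) (by omega) (by omega) (by omega) (by omega) g1
    (i - a').toNat a' (by omega) (by omega) (fun s h3 h4 => hcol s (by omega) (by omega))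
  have g3 := horz hS (i := i) (j := j) (by omega) (by omega) (by omega) (by omega) g2
    (d' - j).toNat d' (by omega) (by omega) (fun s h3 h4 => hrow s (by omega) (by omega))
  have g4 := horz hS (i := i) (j := j) (by omega) (by omega) (by omega) (by omega) g3
    (j - c').toNat c' (by omega) (by omega) (fun s h3 h4 => hrow s (by omega) (by omega))
  rintro ⟨x, y⟩ hxy
  rw [mem_Rect] at hxy
  exact g4 (mem_Rect.mpr (by omega))

/-- the finite set `A` spans the rectangle with rows `a..b` and columns `c..d` -/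
structure Sp (A : Finset (ℤ × ℤ)) (a b c d : ℤ) : Prop where
  rows : a ≤ b
  cols : c ≤ d
  eq : cl (A : Set (ℤ × ℤ)) = Rect a b c d

theorem Sp.mem {A : Finset (ℤ × ℤ)} {a b c d : ℤ} (h : Sp A a b c d) {v : ℤ × ℤ} (hv : v ∈ A) :
    v ∈ Rect a b c d := by
  rw [← h.eq]
  exact subset_cl _ hv

theorem Sp.nonempty {A : Finset (ℤ × ℤ)} {a b c d : ℤ} (h : Sp A a b c d) : A.Nonempty := by
  by_contra hn
  rw [Finset.not_nonempty_iff_eq_empty] at hn
  have h1 : (a, c) ∈ cl (A : Set (ℤ × ℤ)) := by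
    rw [h.eq]
    exact mem_Rect.mpr ⟨le_refl _, h.rows, le_refl _, h.cols⟩
  have h2 := h1 ∅ (fun u v w _ _ _ hu _ => hu.elim) (by rw [hn]; simp)
  exact h2

theorem Sp.of_le {A : Finset (ℤ × ℤ)} {a b c d : ℤ} (h1 : a ≤ b) (h2 : c ≤ d)
    (h3 : ∀ v ∈ A, v ∈ Rect a b c d) (h4 : Rect a b c d ⊆ cl (A : Set (ℤ × ℤ))) : Sp A a b c d :=
  ⟨h1, h2, Set.Subset.antisymm (cl_min (closed_rect a b c d) h3) h4⟩

theorem Sp.single (v : ℤ × ℤ) : Sp {v} v.1 v.1 v.2 v.2 := by
  refine Sp.of_le le_rfl le_rfl ?_ ?_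
  · intro u hu
    rw [Finset.mem_singleton] at hu
    subst hu
    exact ⟨le_rfl, le_rfl, le_rfl, le_rfl⟩
  · rintro ⟨x, y⟩ hxy
    apply subset_cl
    obtain ⟨p, q⟩ := v
    rw [mem_Rect] at hxy
    simp only at hxy
    have e1 : x = p := by omega
    have e2 : y = q := by omega
    subst e1 e2
    simp

theorem Sp.union {A B : Finset (ℤ × ℤ)} {a b c d a' b' c' d' : ℤ} (hA : Sp A a b c d)
    (hB : Sp B a' b' c' d') (near : ¬ Far (Rect a b c d) (Rect a' b' c' d')) :
    Sp (A ∪ B) (min a a') (max b b') (min c c') (max d d') := by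
  have h1 := hA.rows
  have h2 := hA.cols
  have h3 := hB.rows
  have h4 := hB.cols
  refine Sp.of_le (by omega) (by omega) ?_ ?_
  · rintro ⟨x, y⟩ hxy
    rw [Finset.mem_union] at hxy
    rw [mem_Rect]
    rcases hxy with h | h
    · have := hA.mem h
      rw [mem_Rect] at this
      omega
    · have := hB.mem h
      rw [mem_Rect] at this
      omega
  · refine rect_merge (closed_cl _) h1 h2 ?_ ?_ near
    · rw [← hA.eq]
      exact cl_mono (by simp)
    · rw [← hB.eq]
      exact cl_mono (by simp)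

theorem rect_inj {a b c d a' b' c' d' : ℤ} (hab : a ≤ b) (hcd : c ≤ d) (hab' : a' ≤ b')
    (hcd' : c' ≤ d') (h : Rect a b c d = Rect a' b' c' d') :
    a = a' ∧ b = b' ∧ c = c' ∧ d = d' := by
  have h1 : (a, c) ∈ Rect a' b' c' d' := by rw [← h]; exact mem_Rect.mpr (by omega)
  have h2 : (b, d) ∈ Rect a' b' c' d' := by rw [← h]; exact mem_Rect.mpr (by omega)
  have h3 : (a', c') ∈ Rect a b c d := by rw [h]; exact mem_Rect.mpr (by omega)
  have h4 : (b', d') ∈ Rect a b c d := by rw [h]; exact mem_Rect.mpr (by omega)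
  rw [mem_Rect] at h1 h2 h3 h4
  omega

/-- every site of the closure of a finite set lies in a rectangle spanned by a part of the set -/
theorem exists_span {B : Finset (ℤ × ℤ)} {v : ℤ × ℤ} (hv : v ∈ cl (B : Set (ℤ × ℤ))) :
    ∃ B' ⊆ B, ∃ a b c d : ℤ, Sp B' a b c d ∧ v ∈ Rect a b c d := by
  classical
  refine hv {v | ∃ B' ⊆ B, ∃ a b c d : ℤ, Sp B' a b c d ∧ v ∈ Rect a b c d} ?_ ?_
  · rintro ⟨u1, u2⟩ ⟨v1, v2⟩ ⟨w1, w2⟩ h1 h2 hne ⟨B1, hB1, a, b, c, d, hs, hu⟩
      ⟨B2, hB2, a', b', c', d', hs', hw⟩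
    have near : ¬ Far (Rect a b c d) (Rect a' b' c' d') := by
      intro hf
      have h3 := hf _ hu _ hw
      simp only [Adj] at h1 h2 h3
      rcases abs_cases (u1 - w1) with ⟨e3, _⟩ | ⟨e3, _⟩ <;>
        rcases abs_cases (u2 - w2) with ⟨e4, _⟩ | ⟨e4, _⟩ <;> rw [e3, e4] at h3 <;> omega
    refine ⟨B1 ∪ B2, Finset.union_subset hB1 hB2, _, _, _, _, hs.union hs' near, ?_⟩
    rw [mem_Rect] at hu hw ⊢
    simp only [Adj, ne_eq, Prod.mk.injEq] at h1 h2 hne
    omega
  · intro u hu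
    exact ⟨{u}, by simpa using hu, _, _, _, _, Sp.single u, ⟨le_rfl, le_rfl, le_rfl, le_rfl⟩⟩

/-- no site of `A` is generated by the other sites of `A` together with `W` -/
def Ind (W : Set (ℤ × ℤ)) (A : Finset (ℤ × ℤ)) : Prop :=
  ∀ x ∈ A, x ∉ cl (W ∪ ((A.erase x : Finset (ℤ × ℤ)) : Set (ℤ × ℤ)))

theorem Ind.mono {W W' : Set (ℤ × ℤ)} {A A' : Finset (ℤ × ℤ)} (h : Ind W A) (hA : A' ⊆ A)
    (hW : W' ⊆ cl (W ∪ ((A \ A' : Finset (ℤ × ℤ)) : Set (ℤ × ℤ)))) : Ind W' A' := by
  intro x hx hmem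
  refine h x (hA hx) (cl_min (closed_cl _) ?_ hmem)
  rintro v (hv | hv)
  · refine cl_mono ?_ (hW hv)
    rintro u (hu | hu)
    · exact Or.inl hu
    · right
      simp only [Finset.coe_sdiff, Set.mem_sdiff, Finset.mem_coe, Finset.coe_erase,
        Set.mem_singleton_iff] at hu ⊢
      exact ⟨hu.1, fun e => hu.2 (e ▸ hx)⟩
  · apply subset_cl
    right
    simp only [Finset.coe_erase, Set.mem_sdiff, Finset.mem_coe, Set.mem_singleton_iff] at hv ⊢
    exact ⟨hA hv.1, hv.2⟩

theorem Ind.sub {W : Set (ℤ × ℤ)} {A A' : Finset (ℤ × ℤ)} (h : Ind W A) (hA : A' ⊆ A) :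
    Ind W A' :=
  h.mono hA fun _ hv => subset_cl _ (Or.inl hv)

theorem Ind.wall {W W' : Set (ℤ × ℤ)} {A : Finset (ℤ × ℤ)} (h : Ind W A) (hW : W' ⊆ W) :
    Ind W' A :=
  h.mono (Finset.Subset.refl A) fun _ hv => subset_cl _ (Or.inl (hW hv))

/-- decomposition of an independent spanning set -/
theorem decomp {A : Finset (ℤ × ℤ)} (hind : Ind ∅ A) {a b c d : ℤ} (h : Sp A a b c d)
    (h2 : 2 ≤ A.card) : ∃ A1 A2 : Finset (ℤ × ℤ), Disjoint A1 A2 ∧ A1 ∪ A2 = A ∧
      ∃ a1 b1 c1 d1 a2 b2 c2 d2 : ℤ, Sp A1 a1 b1 c1 d1 ∧ Sp A2 a2 b2 c2 d2 ∧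
        ¬ Far (Rect a1 b1 c1 d1) (Rect a2 b2 c2 d2) := by
  classical
  let P : Finset (ℤ × ℤ) → Prop := fun B => ∃ a1 b1 c1 d1 : ℤ, Sp B a1 b1 c1 d1
  let F : Finset (Finset (ℤ × ℤ)) := A.powerset.filter fun B => B ≠ A ∧ P B
  have hF : F.Nonempty := by
    obtain ⟨x, hx⟩ := h.nonempty
    refine ⟨{x}, ?_⟩
    simp only [F, Finset.mem_filter, Finset.mem_powerset, Finset.singleton_subset_iff]
    refine ⟨hx, ?_, _, _, _, _, Sp.single x⟩
    intro e
    rw [← e, Finset.card_singleton] at h2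
    omega
  obtain ⟨A1, hA1, hmax⟩ := Finset.exists_max_image F Finset.card hF
  simp only [F, Finset.mem_filter, Finset.mem_powerset] at hA1 hmax
  obtain ⟨hsub, hne, a1, b1, c1, d1, hs1⟩ := hA1
  by_cases hex : ∃ B ⊆ A \ A1, ∃ a2 b2 c2 d2 : ℤ, Sp B a2 b2 c2 d2 ∧
      ¬ Far (Rect a1 b1 c1 d1) (Rect a2 b2 c2 d2)
  · obtain ⟨B, hB, a2, b2, c2, d2, hs2, hnf⟩ := hex
    have hdis : Disjoint A1 B := Finset.disjoint_left.mpr fun x hx hx' =>
      (Finset.mem_sdiff.mp (hB hx')).2 hx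
    have heq : A1 ∪ B = A := by
      by_contra hne'
      have h3 := hmax (A1 ∪ B) ⟨Finset.union_subset hsub (hB.trans Finset.sdiff_subset), hne',
        _, _, _, _, hs1.union hs2 hnf⟩
      rw [Finset.card_union_of_disjoint hdis] at h3
      have := hs2.nonempty.card_pos
      omega
    exact ⟨A1, B, hdis, heq, a1, b1, c1, d1, a2, b2, c2, d2, hs1, hs2, hnf⟩
  · exfalso
    push Not at hex
    have hfar : Far (Rect a1 b1 c1 d1) (cl ((A \ A1 : Finset (ℤ × ℤ)) : Set (ℤ × ℤ))) := by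
      intro u hu v hv
      obtain ⟨B', hB', a2, b2, c2, d2, hs2, hv2⟩ := exists_span hv
      exact hex B' hB' a2 b2 c2 d2 hs2 u hu v hv2
    have hcl := closed_union (closed_rect a1 b1 c1 d1) (closed_cl _) hfar
    have hsubset : Rect a b c d ⊆ Rect a1 b1 c1 d1 ∪ cl ((A \ A1 : Finset (ℤ × ℤ)) : Set (ℤ × ℤ)) := by
      rw [← h.eq]
      refine cl_min hcl ?_
      intro v hv
      by_cases hv1 : v ∈ A1
      · exact Or.inl (hs1.mem hv1)
      · right
        apply subset_cl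
        simp only [Finset.coe_sdiff, Set.mem_sdiff, Finset.mem_coe]
        exact ⟨hv, hv1⟩
    have hin : Rect a1 b1 c1 d1 ⊆ Rect a b c d := by
      rw [← hs1.eq, ← h.eq]
      exact cl_mono (by exact_mod_cast hsub)
    have hr1 := hs1.rows
    have hc1 := hs1.cols
    have hr := h.rows
    have hc := h.cols
    have hcor1 := hin (mem_Rect.mpr ⟨le_rfl, hr1, le_rfl, hc1⟩ : (a1, c1) ∈ Rect a1 b1 c1 d1)
    have hcor2 := hin (mem_Rect.mpr ⟨hr1, le_rfl, hc1, le_rfl⟩ : (b1, d1) ∈ Rect a1 b1 c1 d1)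
    rw [mem_Rect] at hcor1 hcor2
    have test : ∀ x y x' y' : ℤ, (x, y) ∈ Rect a1 b1 c1 d1 → (x', y') ∈ Rect a b c d →
        (x', y') ∉ Rect a1 b1 c1 d1 → |x - x'| + |y - y'| ≤ 1 → False := by
      intro x y x' y' h3 h4 h5 h6
      rcases hsubset h4 with h7 | h7
      · exact h5 h7
      · have h8 := hfar _ h3 _ h7
        simp only at h8
        omega
    have hne2 : ¬ (a1 = a ∧ b1 = b ∧ c1 = c ∧ d1 = d) := by
      rintro ⟨rfl, rfl, rfl, rfl⟩
      obtain ⟨x, hxA, hx1⟩ : ∃ x ∈ A, x ∉ A1 := by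
        by_contra hcon
        push Not at hcon
        exact hne (Finset.Subset.antisymm hsub hcon)
      apply hind x hxA
      have h3 := h.mem hxA
      rw [← hs1.eq] at h3
      refine cl_mono ?_ h3
      intro v hv
      right
      simp only [Finset.coe_erase, Set.mem_sdiff, Finset.mem_coe, Set.mem_singleton_iff] at hv ⊢
      exact ⟨hsub hv, fun e => hx1 (e ▸ hv)⟩
    by_cases e1 : a < a1
    · refine test a1 c1 (a1 - 1) c1 (mem_Rect.mpr (by omega)) (mem_Rect.mpr (by omega)) ?_ (by simp)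
      rw [mem_Rect]; omega
    by_cases e2 : b1 < b
    · refine test b1 c1 (b1 + 1) c1 (mem_Rect.mpr (by omega)) (mem_Rect.mpr (by omega)) ?_ (by simp)
      rw [mem_Rect]; omega
    by_cases e3 : c < c1
    · refine test a1 c1 a1 (c1 - 1) (mem_Rect.mpr (by omega)) (mem_Rect.mpr (by omega)) ?_ (by simp)
      rw [mem_Rect]; omega
    by_cases e4 : d1 < d
    · refine test a1 d1 a1 (d1 + 1) (mem_Rect.mpr (by omega)) (mem_Rect.mpr (by omega)) ?_ (by simp)
      rw [mem_Rect]; omega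
    exact hne2 (by omega)

theorem closed_left (k : ℤ) : Closed {v : ℤ × ℤ | v.2 ≤ k} := by
  rintro ⟨u1, u2⟩ ⟨v1, v2⟩ ⟨w1, w2⟩ h1 h2 hne hu hw
  simp only [Adj, ne_eq, Prod.mk.injEq, Set.mem_ofPred_eq] at *
  omega

theorem closed_right (k : ℤ) : Closed {v : ℤ × ℤ | k ≤ v.2} := by
  rintro ⟨u1, u2⟩ ⟨v1, v2⟩ ⟨w1, w2⟩ h1 h2 hne hu hw
  simp only [Adj, ne_eq, Prod.mk.injEq, Set.mem_ofPred_eq] at *
  omega

/-- two consecutive columns of a spanned rectangle contain a site -/
theorem exists_col {A : Finset (ℤ × ℤ)} {a b c d : ℤ} (h : Sp A a b c d) {j : ℤ} (hj : c ≤ j)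
    (hj' : j + 1 ≤ d) : ∃ v ∈ A, v.2 = j ∨ v.2 = j + 1 := by
  by_contra hcon
  push Not at hcon
  have hfar : Far {v : ℤ × ℤ | v.2 ≤ j - 1} {v : ℤ × ℤ | j + 2 ≤ v.2} := by
    rintro ⟨u1, u2⟩ hu ⟨v1, v2⟩ hv
    simp only [Set.mem_ofPred_eq] at hu hv ⊢
    have h1 := abs_nonneg (u1 - v1)
    have h2 := neg_le_abs (u2 - v2)
    omega
  have hcl := closed_union (closed_left (j - 1)) (closed_right (j + 2)) hfar
  have h1 : Rect a b c d ⊆ {v : ℤ × ℤ | v.2 ≤ j - 1} ∪ {v : ℤ × ℤ | j + 2 ≤ v.2} := by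
    rw [← h.eq]
    refine cl_min hcl ?_
    intro v hv
    have := hcon v hv
    simp only [Set.mem_union, Set.mem_ofPred_eq]
    omega
  have h2 := h1 (mem_Rect.mpr ⟨le_rfl, h.rows, hj, by omega⟩ : (a, j) ∈ Rect a b c d)
  simp only [Set.mem_union, Set.mem_ofPred_eq] at h2
  omega

end Pool.Agent.H86.Perc
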