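import Pool.Agent.H86.Perc.Main

/-!
Lower bound for thin rectangles, from the corner avoiding sets of the library.
-/

set_option autoImplicit false

namespace Pool.Agent.H86.Perc

open Pool.Agent.Q131.Perc

theorem tl_sp {h w : ℤ} {A : Finset (ℤ × ℤ)} (hh : 1 ≤ h) (hw : 1 ≤ w) (hA : TL h w A) :
    Sp A 0 (h - 1) 0 (w - 1) :=
  Sp.of_le (by omega) (by omega) hA.sub fun v hv S hS hAS => hA.span S hS (fun u hu => hAS hu) hv

theorem far_point {S : Set (ℤ × ℤ)} {i j : ℤ}
    (h : ∀ x y : ℤ, (x, y) ∈ S → 3 ≤ max (x - i) (i - x) + max (y - j) (j - y)) :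
    Far S {(i, j)} := by
  rintro ⟨x, y⟩ hxy v hv
  rw [Set.mem_singleton_iff] at hv
  subst hv
  have h1 := h x y hxy
  simp only
  have h2 := le_abs_self (x - i)
  have h3 := neg_le_abs (x - i)
  have h4 := le_abs_self (y - j)
  have h5 := neg_le_abs (y - j)
  omega

theorem closed_point (i j : ℤ) : Closed ({(i, j)} : Set (ℤ × ℤ)) := by
  intro u v w _ _ hne hu hw
  rw [Set.mem_singleton_iff] at hu hw
  exact absurd (hu.trans hw.symm) hne

/-- the key property of corner avoiding sets -/
theorem tl_crit {h w : ℤ} {A : Finset (ℤ × ℤ)} (hh : 1 ≤ h) (hw : 1 ≤ w) (hA : TL h w A)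
    {x : ℤ × ℤ} (hx : x ∈ A) : ∃ S : Set (ℤ × ℤ), Closed S ∧ (∀ v ∈ A, v ≠ x → v ∈ S) ∧
      S ⊆ Rect 0 (h - 1) 0 (w - 1) ∧ (h - 1, 0) ∉ S ∧ x ∉ S := by
  obtain ⟨S, h1, h2, h3, h4⟩ := hA.crit x hx
  refine ⟨S, h1, h2, h3, h4, ?_⟩
  intro hxS
  apply h4
  refine hA.span S h1 ?_ (mem_Rect.mpr (by omega))
  intro v hv
  by_cases hvx : v = x
  · rw [hvx]; exact hxS
  · exact h2 v hv hvx

theorem tl_good {h w : ℤ} {A : Finset (ℤ × ℤ)} (hh : 1 ≤ h) (hw : 1 ≤ w) (hA : TL h w A) :
    Ind ∅ A := by
  intro x hx hmem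
  obtain ⟨S, h1, h2, h3, h4, h5⟩ := tl_crit hh hw hA hx
  apply h5
  refine cl_min h1 ?_ hmem
  rintro v (hv | hv)
  · exact hv.elim
  · simp only [Finset.coe_erase, Set.mem_sdiff, Finset.mem_coe, Set.mem_singleton_iff] at hv
    exact h2 v hv.1 hv.2

theorem near_of {a b c d i j : ℤ} (x y : ℤ) (h : (x, y) ∈ Rect a b c d)
    (hd : max (x - i) (i - x) + max (y - j) (j - y) ≤ 2) :
    ¬ Far (Rect a b c d) (Rect i i j j) := by
  intro hf
  have h1 := hf _ h (i, j) ⟨le_rfl, le_rfl, le_rfl, le_rfl⟩
  simp only at h1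
  rcases abs_cases (x - i) with ⟨e3, _⟩ | ⟨e3, _⟩ <;>
    rcases abs_cases (y - j) with ⟨e4, _⟩ | ⟨e4, _⟩ <;> rw [e3, e4] at h1 <;> omega

/-- two more rows -/
theorem two_rows {h w : ℤ} {A : Finset (ℤ × ℤ)} (hh : 1 ≤ h) (hw : 1 ≤ w) (hA : TL h w A) :
    Sp (A ∪ {(h + 1, 0)}) 0 (h + 1) 0 (w - 1) ∧ Ind ∅ (A ∪ {(h + 1, 0)}) := by
  classical
  have hsp := tl_sp hh hw hA
  constructor
  · have h1 := hsp.union (Sp.single (h + 1, 0)) (near_of (h - 1) 0 (mem_Rect.mpr (by omega))
      (by simp only; omega))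
    simp only at h1
    have e1 : min 0 (h + 1) = 0 := by omega
    have e2 : max (h - 1) (h + 1) = h + 1 := by omega
    have e3 : max (w - 1) 0 = w - 1 := by omega
    rw [e1, e2, e3, min_self] at h1
    exact h1
  · intro x hx hmem
    rw [Finset.mem_union, Finset.mem_singleton] at hx
    rcases hx with hx | rfl
    · obtain ⟨S, h1, h2, h3, h4, h5⟩ := tl_crit hh hw hA hx
      have hfar : Far S {(h + 1, 0)} := by
        refine far_point ?_
        intro a b hab
        have h6 := h3 hab
        rw [mem_Rect] at h6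
        by_cases hcor : a = h - 1 ∧ b = 0
        · rw [hcor.1, hcor.2] at hab
          exact absurd hab h4
        · omega
      have h6 := cl_min (closed_union h1 (closed_point (h + 1) 0) hfar) (by
        rintro v (hv | hv)
        · exact hv.elim
        · simp only [Finset.coe_erase, Set.mem_sdiff, Finset.mem_coe, Set.mem_singleton_iff,
            Finset.mem_union, Finset.mem_singleton] at hv
          rcases hv with ⟨hv | hv, hvx⟩
          · exact Or.inl (h2 v hv hvx)
          · exact Or.inr hv) hmem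
      rcases h6 with h6 | h6
      · exact h5 h6
      · have h7 := hA.sub x hx
        rw [Set.mem_singleton_iff] at h6
        rw [h6, mem_Rect] at h7
        omega
    · have h6 := cl_min (closed_rect 0 (h - 1) 0 (w - 1)) (by
        rintro v (hv | hv)
        · exact hv.elim
        · simp only [Finset.coe_erase, Set.mem_sdiff, Finset.mem_coe, Set.mem_singleton_iff,
            Finset.mem_union, Finset.mem_singleton] at hv
          rcases hv with ⟨hv | hv, hvx⟩
          · exact hA.sub v hv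
          · exact absurd hv hvx) hmem
      rw [mem_Rect] at h6
      omega

/-- three more rows -/
theorem three_rows {h w : ℤ} {A : Finset (ℤ × ℤ)} (hh : 1 ≤ h) (hw : 3 ≤ w) (hA : TL h w A) :
    Sp (A ∪ {(h + 1, 0)} ∪ {(h + 2, 2)}) 0 (h + 2) 0 (w - 1) ∧
      Ind ∅ (A ∪ {(h + 1, 0)} ∪ {(h + 2, 2)}) := by
  classical
  obtain ⟨hsp, -⟩ := two_rows hh (by omega) hA
  constructor
  · have h1 := hsp.union (Sp.single (h + 2, 2)) (near_of (h + 1) 2 (mem_Rect.mpr (by omega))
      (by simp only; omega))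
    simp only at h1
    have e1 : min 0 (h + 2) = 0 := by omega
    have e2 : max (h + 1) (h + 2) = h + 2 := by omega
    have e3 : max (w - 1) 2 = w - 1 := by omega
    have e4 : min (0 : ℤ) 2 = 0 := by norm_num
    rw [e1, e2, e3, e4] at h1
    exact h1
  · intro x hx hmem
    rw [Finset.mem_union, Finset.mem_singleton, Finset.mem_union, Finset.mem_singleton] at hx
    rcases hx with (hx | rfl) | rfl
    · obtain ⟨S, h1, h2, h3, h4, h5⟩ := tl_crit hh (by omega) hA hx
      have hfar : Far S {(h + 1, 0)} := by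
        refine far_point ?_
        intro a b hab
        have h6 := h3 hab
        rw [mem_Rect] at h6
        by_cases hcor : a = h - 1 ∧ b = 0
        · rw [hcor.1, hcor.2] at hab
          exact absurd hab h4
        · omega
      have hfar2 : Far (S ∪ {(h + 1, 0)}) {(h + 2, 2)} := by
        refine far_point ?_
        intro a b hab
        rcases hab with hab | hab
        · have h6 := h3 hab
          rw [mem_Rect] at h6
          omega
        · rw [Set.mem_singleton_iff, Prod.mk.injEq] at hab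
          omega
      have h6 := cl_min (closed_union (closed_union h1 (closed_point (h + 1) 0) hfar)
        (closed_point (h + 2) 2) hfar2) (by
        rintro v (hv | hv)
        · exact hv.elim
        · simp only [Finset.coe_erase, Set.mem_sdiff, Finset.mem_coe, Set.mem_singleton_iff,
            Finset.mem_union, Finset.mem_singleton] at hv
          rcases hv with ⟨(hv | hv) | hv, hvx⟩
          · exact Or.inl (Or.inl (h2 v hv hvx))
          · exact Or.inl (Or.inr hv)
          · exact Or.inr hv) hmem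
      rcases h6 with (h6 | h6) | h6
      · exact h5 h6
      · have h7 := hA.sub x hx
        rw [Set.mem_singleton_iff] at h6
        rw [h6, mem_Rect] at h7
        omega
      · have h7 := hA.sub x hx
        rw [Set.mem_singleton_iff] at h6
        rw [h6, mem_Rect] at h7
        omega
    · have hfar2 : Far (Rect 0 (h - 1) 0 (w - 1)) {(h + 2, 2)} := by
        refine far_point ?_
        intro a b hab
        rw [mem_Rect] at hab
        omega
      have h6 := cl_min (closed_union (closed_rect 0 (h - 1) 0 (w - 1))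
        (closed_point (h + 2) 2) hfar2) (by
        rintro v (hv | hv)
        · exact hv.elim
        · simp only [Finset.coe_erase, Set.mem_sdiff, Finset.mem_coe, Set.mem_singleton_iff,
            Finset.mem_union, Finset.mem_singleton] at hv
          rcases hv with ⟨(hv | hv) | hv, hvx⟩
          · exact Or.inl (hA.sub v hv)
          · exact absurd hv hvx
          · exact Or.inr hv) hmem
      rcases h6 with h6 | h6
      · rw [mem_Rect] at h6
        omega
      · rw [Set.mem_singleton_iff, Prod.mk.injEq] at h6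
        omega
    · have h6 := cl_min (closed_rect 0 (h + 1) 0 (w - 1)) (by
        rintro v (hv | hv)
        · exact hv.elim
        · simp only [Finset.coe_erase, Set.mem_sdiff, Finset.mem_coe, Set.mem_singleton_iff,
            Finset.mem_union, Finset.mem_singleton] at hv
          rcases hv with ⟨(hv | hv) | hv, hvx⟩
          · have h7 : 0 ≤ v.1 ∧ v.1 ≤ h - 1 ∧ 0 ≤ v.2 ∧ v.2 ≤ w - 1 := hA.sub v hv
            have h8 : (v.1, v.2) ∈ Rect 0 (h + 1) 0 (w - 1) := mem_Rect.mpr (by omega)
            exact h8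
          · rw [hv]
            exact mem_Rect.mpr (by omega)
          · exact absurd hv hvx) hmem
      rw [mem_Rect] at h6
      omega

/-- **Lower bound.** -/
theorem lower (m : ℕ) (hm : 2 ≤ m) (n : ℕ) (hn : 2 * ((m + 3) / 5) + 3 ≤ n) :
    ∃ A : Finset (ℤ × ℤ), Ind ∅ A ∧ Sp A 0 (m - 1) 0 (n - 1) ∧
      2 * ((m + 3) / 5) * (n - 2 * ((m + 3) / 5)) ≤ 3 * A.card := by
  classical
  obtain ⟨s, hs⟩ : ∃ s, s = (m + 3) / 5 := ⟨_, rfl⟩
  rw [← hs] at hn ⊢
  have hs1 : 1 ≤ s := by omega
  have hpow : s ≤ 2 ^ s := Nat.lt_two_pow_self.le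
  obtain ⟨δ, r, hr, hδ, hm'⟩ : ∃ δ r : ℕ, r ≤ s ∧ (δ = 0 ∨ δ = 2 ∨ δ = 3) ∧
      m + 3 = 5 * s + r + δ := by
    by_cases h1 : (m + 3) % 5 ≤ s
    · exact ⟨0, (m + 3) % 5, h1, Or.inl rfl, by omega⟩
    · by_cases h2 : (m + 3) % 5 - 2 ≤ s
      · exact ⟨2, (m + 3) % 5 - 2, h2, Or.inr (Or.inl rfl), by omega⟩
      · exact ⟨3, (m + 3) % 5 - 3, by omega, Or.inr (Or.inr rfl), by omega⟩
  obtain ⟨A, hA, hcard⟩ := strips s s r n hs1 hpow hr (by omega)
  rcases hδ with rfl | rfl | rfl
  · have e : 5 * (s : ℤ) - 3 + r = m := by omega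
    rw [e] at hA
    exact ⟨A, tl_good (by omega) (by omega) hA, tl_sp (by omega) (by omega) hA, hcard⟩
  · have e : 5 * (s : ℤ) - 3 + r = m - 2 := by omega
    rw [e] at hA
    obtain ⟨h1, h2⟩ := two_rows (by omega) (by omega) hA
    have e2 : (m : ℤ) - 2 + 1 = m - 1 := by ring
    rw [e2] at h1 h2
    refine ⟨_, h2, h1, hcard.trans ?_⟩
    exact Nat.mul_le_mul_left _ (Finset.card_le_card Finset.subset_union_left)
  · have e : 5 * (s : ℤ) - 3 + r = m - 3 := by omega
    rw [e] at hA
    obtain ⟨h1, h2⟩ := three_rows (by omega) (by omega) hA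
    have e2 : (m : ℤ) - 3 + 2 = m - 1 := by ring
    rw [e2] at h1 h2
    refine ⟨_, h2, h1, hcard.trans ?_⟩
    refine Nat.mul_le_mul_left _ (Finset.card_le_card ?_)
    exact Finset.subset_union_left.trans Finset.subset_union_left

end Pool.Agent.H86.Perc
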