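import Pool.Agent.H86.Perc.Upper

/-!
Upper bound for independent spanning sets of thin rectangles: the induction on the height.
-/

set_option autoImplicit false

namespace Pool.Agent.H86.Perc

open Pool.Agent.Q131.Perc

/-- independent sets inside one row -/
theorem row_bound {A : Finset (ℤ × ℤ)} {a c d p q : ℤ} (hind : Ind ∅ A) (hA : Sp A a a c d)
    (hpq : p ≤ q + 1) : 3 * (cnt A p q : ℤ) ≤ 2 * (q - p + 1) + 4 := by
  classical
  refine cnt_window hpq ?_
  intro x hx y hy z hz hxy hyz hxz _ h1 h2 _ h3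
  have row : ∀ v ∈ A, v.1 = a := by
    intro v hv
    have := hA.mem hv
    have h4 : a ≤ v.1 ∧ v.1 ≤ a ∧ c ≤ v.2 ∧ v.2 ≤ d := this
    omega
  have r1 := row x hx
  have r2 := row y hy
  have r3 := row z hz
  have n1 : x.2 ≠ y.2 := fun e => hxy (Prod.ext (by omega) e)
  have n2 : y.2 ≠ z.2 := fun e => hyz (Prod.ext (by omega) e)
  apply hind y hy
  refine closed_cl _ x y z ?_ ?_ hxz ?_ ?_
  · simp only [Adj]; omega
  · simp only [Adj]; omega
  · exact subset_cl _ (Or.inr (by simp [hx, hxy]))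
  · exact subset_cl _ (Or.inr (by simp [hz, hyz.symm]))

theorem sub_rect {A Q : Finset (ℤ × ℤ)} {a b c d a' b' c' d' : ℤ} (hA : Sp A a b c d)
    (hQ : Sp Q a' b' c' d') (h : Q ⊆ A) : a ≤ a' ∧ b' ≤ b ∧ c ≤ c' ∧ d' ≤ d := by
  have hin : Rect a' b' c' d' ⊆ Rect a b c d := by
    rw [← hQ.eq, ← hA.eq]
    exact cl_mono (by exact_mod_cast h)
  have h1 := hQ.rows
  have h2 := hQ.cols
  have h3 := hin (mem_Rect.mpr ⟨le_rfl, h1, le_rfl, h2⟩ : (a', c') ∈ Rect a' b' c' d')
  have h4 := hin (mem_Rect.mpr ⟨h1, le_rfl, h2, le_rfl⟩ : (b', d') ∈ Rect a' b' c' d')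
  rw [mem_Rect] at h3 h4
  omega

/-- the sites to the right of a spanned rectangle of full height -/
theorem line_right {A Q : Finset (ℤ × ℤ)} {a b c d c' d' p q : ℤ} (hind : Ind ∅ A)
    (hA : Sp A a b c d) (hQ : Sp Q a b c' d') (hQA : Q ⊆ A) (hp : d' < p) (hpq : p ≤ q + 1) :
    3 * (cnt A p q : ℤ) ≤ 2 * (q - p + 1) + 4 := by
  classical
  refine cnt_window hpq ?_
  intro x hx y hy z hz hxy hyz hxz hpx h1 h2 _ h3
  have hsub := sub_rect hA hQ hQA
  have hr := hQ.rows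
  have hc := hQ.cols
  apply hind y hy
  set K := cl (∅ ∪ ((A.erase y : Finset (ℤ × ℤ)) : Set (ℤ × ℤ))) with hKdef
  have hK : Closed K := closed_cl _
  have mem : ∀ v ∈ A, v ≠ y → (v.1, v.2) ∈ K := fun v hv hne =>
    subset_cl _ (Or.inr (by simp [hv, hne]))
  have box : ∀ v ∈ A, a ≤ v.1 ∧ v.1 ≤ b ∧ c ≤ v.2 ∧ v.2 ≤ d := fun v hv => hA.mem hv
  have hQK : Rect a b c' d' ⊆ K := by
    rw [← hQ.eq]
    refine cl_mono ?_
    intro v hv
    right
    have h4 : a ≤ v.1 ∧ v.1 ≤ b ∧ c' ≤ v.2 ∧ v.2 ≤ d' := hQ.mem hv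
    simp only [Finset.coe_erase, Set.mem_sdiff, Set.mem_singleton_iff]
    refine ⟨hQA hv, ?_⟩
    rintro rfl
    omega
  have key : ∀ n : ℕ, d' + n ≤ x.2 → Rect a b c' (d' + n) ⊆ K := by
    intro n
    induction n with
    | zero => intro _; simpa using hQK
    | succ n ih =>
      intro hn
      push_cast at hn
      have h4 := ih (by omega)
      have bx := box x hx
      obtain ⟨u, hu, hune, hu1, hu2⟩ : ∃ u ∈ A, u ≠ y ∧ d' + n + 1 ≤ u.2 ∧ u.2 ≤ d' + n + 2 := by
        by_cases ht : d' + n + 2 ≤ x.2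
        · obtain ⟨v, hv, hv'⟩ := exists_col hA (j := d' + n + 1) (by omega) (by omega)
          by_cases hvy : v = y
          · exact ⟨x, hx, hxy, by rw [hvy] at hv'; omega, by rw [hvy] at hv'; omega⟩
          · exact ⟨v, hv, hvy, by omega, by omega⟩
        · exact ⟨x, hx, hxy, by omega, by omega⟩
      have bu := box u hu
      have g := grow hK hr (by omega) h4 (mem u hu hune) (by omega)
      rintro ⟨s, t⟩ hst
      rw [mem_Rect] at hst
      push_cast at hst
      exact g (mem_Rect.mpr (by omega))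
  have h4 := key (x.2 - d').toNat (by omega)
  have h5 : d' + ((x.2 - d').toNat : ℤ) = x.2 := by omega
  rw [h5] at h4
  have bz := box z hz
  have by' := box y hy
  have g := grow hK hr (by omega) h4 (mem z hz hyz.symm) (by omega)
  have h6 : (y.1, y.2) ∈ K := g (mem_Rect.mpr (by omega))
  exact h6

/-- the sites to the left of a spanned rectangle of full height -/
theorem line_left {A Q : Finset (ℤ × ℤ)} {a b c d c' d' p q : ℤ} (hind : Ind ∅ A)
    (hA : Sp A a b c d) (hQ : Sp Q a b c' d') (hQA : Q ⊆ A) (hq : q < c') (hpq : p ≤ q + 1) :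
    3 * (cnt A p q : ℤ) ≤ 2 * (q - p + 1) + 4 := by
  classical
  refine cnt_window hpq ?_
  intro z hz y hy x hx hzy hyx hzx _ h2 h1 hxq h3
  have hsub := sub_rect hA hQ hQA
  have hr := hQ.rows
  have hc := hQ.cols
  apply hind y hy
  set K := cl (∅ ∪ ((A.erase y : Finset (ℤ × ℤ)) : Set (ℤ × ℤ))) with hKdef
  have hK : Closed K := closed_cl _
  have mem : ∀ v ∈ A, v ≠ y → (v.1, v.2) ∈ K := fun v hv hne =>
    subset_cl _ (Or.inr (by simp [hv, hne]))
  have box : ∀ v ∈ A, a ≤ v.1 ∧ v.1 ≤ b ∧ c ≤ v.2 ∧ v.2 ≤ d := fun v hv => hA.mem hv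
  have hQK : Rect a b c' d' ⊆ K := by
    rw [← hQ.eq]
    refine cl_mono ?_
    intro v hv
    right
    have h4 : a ≤ v.1 ∧ v.1 ≤ b ∧ c' ≤ v.2 ∧ v.2 ≤ d' := hQ.mem hv
    simp only [Finset.coe_erase, Set.mem_sdiff, Set.mem_singleton_iff]
    refine ⟨hQA hv, ?_⟩
    rintro rfl
    omega
  have key : ∀ n : ℕ, x.2 ≤ c' - n → Rect a b (c' - n) d' ⊆ K := by
    intro n
    induction n with
    | zero => intro _; simpa using hQK
    | succ n ih =>
      intro hn
      push_cast at hn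
      have h4 := ih (by omega)
      have bx := box x hx
      obtain ⟨u, hu, hune, hu1, hu2⟩ : ∃ u ∈ A, u ≠ y ∧ c' - n - 2 ≤ u.2 ∧ u.2 ≤ c' - n - 1 := by
        by_cases ht : x.2 ≤ c' - n - 2
        · obtain ⟨v, hv, hv'⟩ := exists_col hA (j := c' - n - 2) (by omega) (by omega)
          by_cases hvy : v = y
          · exact ⟨x, hx, hyx.symm, by rw [hvy] at hv'; omega, by rw [hvy] at hv'; omega⟩
          · exact ⟨v, hv, hvy, by omega, by omega⟩
        · exact ⟨x, hx, hyx.symm, by omega, by omega⟩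
      have bu := box u hu
      have g := grow hK hr (by omega) h4 (mem u hu hune) (by omega)
      rintro ⟨s, t⟩ hst
      rw [mem_Rect] at hst
      push_cast at hst
      exact g (mem_Rect.mpr (by omega))
  have h4 := key (c' - x.2).toNat (by omega)
  have h5 : c' - ((c' - x.2).toNat : ℤ) = x.2 := by omega
  rw [h5] at h4
  have bz := box z hz
  have by' := box y hy
  have g := grow hK hr (by omega) h4 (mem z hz hzy) (by omega)
  have h6 : (y.1, y.2) ∈ K := g (mem_Rect.mpr (by omega))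
  exact h6

/-- number of levels -/
def lev (x : ℤ) : ℤ := (x + 3) / 5

/-- the bound for heights at most `h` with error constant `C` -/
def Bd (h C : ℕ) : Prop :=
  ∀ (W : Set (ℤ × ℤ)) (A : Finset (ℤ × ℤ)) (a b c d p q wT wB : ℤ), Ind W A → Sp A a b c d →
    b - a < h → c ≤ p → p ≤ q → q ≤ d → TopOK W b p q wT → BotOK W a p q wB →
    2 ≤ wT - wB - 5 → 3 * (cnt A p q : ℤ) ≤ 2 * lev (wT - wB - 5) * (q - p + 1) + C

theorem gen_bound {h C : ℕ} (hBd : Bd h C) {W : Set (ℤ × ℤ)} {A : Finset (ℤ × ℤ)}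
    {a b c d p q wT wB : ℤ} (hind : Ind W A) (hA : Sp A a b c d) (hh : b - a < h) (hcp : c ≤ p)
    (hpq : p ≤ q) (hqd : q ≤ d) (hT : TopOK W b p q wT) (hB : BotOK W a p q wB)
    (hx : a < b ∨ wT - wB - 5 ≤ 0) :
    3 * (cnt A p q : ℤ) ≤
      2 * (if 2 ≤ wT - wB - 5 then lev (wT - wB - 5) else 0) * (q - p + 1) + (C + 9) := by
  split_ifs with h2
  · have := hBd W A a b c d p q wT wB hind hA hh hcp hpq hqd hT hB h2
    omega
  · have := small hind hA hpq hT hB (by omega) hx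
    have h3 : (cnt A p q : ℤ) ≤ 3 := by exact_mod_cast this
    have h4 : (0 : ℤ) ≤ C := Int.natCast_nonneg C
    nlinarith

theorem single_bound {h C : ℕ} (hBd : Bd h C) {W : Set (ℤ × ℤ)} {A : Finset (ℤ × ℤ)}
    {a b c d p q wT wB x : ℤ} (hind : Ind W A) (hA : Sp A a b c d) (hh : b - a < h) (hcp : c ≤ p)
    (hpq : p ≤ q) (hqd : q ≤ d) (hT : TopOK W b p q wT) (hB : BotOK W a p q wB)
    (hx : wT - wB - 5 ≤ x) (hx2 : 2 ≤ x) :
    3 * (cnt A p q : ℤ) ≤ 2 * lev x * (q - p + 1) + (C + 9) := by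
  have h4 : (0 : ℤ) ≤ C := Int.natCast_nonneg C
  have h5 : 1 ≤ lev x := by unfold lev; omega
  by_cases h6 : a < b ∨ wT - wB - 5 ≤ 0
  · have h7 := gen_bound hBd hind hA hh hcp hpq hqd hT hB h6
    have h8 : (if 2 ≤ wT - wB - 5 then lev (wT - wB - 5) else 0) ≤ lev x := by
      split_ifs
      · unfold lev; omega
      · omega
    have h9 := mul_le_mul_of_nonneg_right h8 (show (0 : ℤ) ≤ q - p + 1 by omega)
    nlinarith
  · have h7 : a = b := by have := hA.rows; omega
    subst h7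
    have h8 := row_bound (p := p) (q := q) (hind.wall (Set.empty_subset _)) hA (by omega)
    have h9 := mul_le_mul_of_nonneg_right h5 (show (0 : ℤ) ≤ q - p + 1 by omega)
    nlinarith

theorem overlap_bound {h C : ℕ} (hBd : Bd h C) {W : Set (ℤ × ℤ)} {Q A1 A2 : Finset (ℤ × ℤ)}
    {a b a1 b1 c1 d1 a2 b2 c2 d2 p q wT wB : ℤ} (hind : Ind W Q) (h1Q : A1 ⊆ Q) (h2Q : A2 ⊆ Q)
    (hdis : Disjoint A1 A2) (hA1 : Sp A1 a1 b1 c1 d1) (hA2 : Sp A2 a2 b2 c2 d2)
    (hh1 : b1 - a1 < h) (hh2 : b2 - a2 < h) (ha : a1 = a) (hb : b2 = b) (haa : a1 < a2)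
    (hbb : b1 < b2) (hgap : a2 - b1 ≤ 2) (hc1 : c1 ≤ p) (hc2 : c2 ≤ p) (hd1 : q ≤ d1)
    (hd2 : q ≤ d2) (hpq : p ≤ q) (hT : TopOK W b p q wT) (hB : BotOK W a p q wB)
    (hx : 2 ≤ wT - wB - 5) :
    3 * ((cnt A1 p q : ℤ) + cnt A2 p q) ≤ 2 * lev (wT - wB - 5) * (q - p + 1) + (2 * C + 18) := by
  classical
  have hr1 := hA1.rows
  have hr2 := hA2.rows
  have i1 : Ind (W ∪ Rect a2 b2 c2 d2) A1 := by
    refine hind.mono h1Q ?_
    rintro v (hv | hv)
    · exact subset_cl _ (Or.inl hv)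
    · rw [← hA2.eq] at hv
      refine cl_mono ?_ hv
      intro u hu
      right
      simp only [Finset.coe_sdiff, Set.mem_sdiff, Finset.mem_coe] at hu ⊢
      exact ⟨h2Q hu, fun e => Finset.disjoint_left.mp hdis e hu⟩
  have i2 : Ind (W ∪ Rect a1 b1 c1 d1) A2 := by
    refine hind.mono h2Q ?_
    rintro v (hv | hv)
    · exact subset_cl _ (Or.inl hv)
    · rw [← hA1.eq] at hv
      refine cl_mono ?_ hv
      intro u hu
      right
      simp only [Finset.coe_sdiff, Set.mem_sdiff, Finset.mem_coe] at hu ⊢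
      exact ⟨h1Q hu, fun e => Finset.disjoint_left.mp hdis hu e⟩
  have inl : ∀ {X Y : Set (ℤ × ℤ)}, X ⊆ Y → ∀ {Z : Set (ℤ × ℤ)}, X ⊆ Y ∪ Z :=
    fun hXY _ _ hv => Or.inl (hXY hv)
  -- walls for the lower part
  obtain ⟨t1, ht1, ht1', T1⟩ : ∃ t1, t1 ≤ wT ∧ t1 ≤ a2 ∧
      TopOK (W ∪ Rect a2 b2 c2 d2) b1 p q t1 := by
    rcases lt_or_ge a2 wT with h3 | h3
    · refine ⟨a2, h3.le, le_rfl, Or.inr ⟨by omega, b2, by omega, by omega, ?_⟩⟩
      rintro ⟨s, t⟩ hst
      rw [mem_Rect] at hst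
      exact Or.inr (mem_Rect.mpr (by omega))
    · rcases hT with hT | ⟨hT1, T, hT2, hT3, hT4⟩
      · omega
      · exact ⟨wT, le_rfl, h3, Or.inr ⟨by omega, T, by omega, hT3, inl hT4⟩⟩
  have B1 : BotOK (W ∪ Rect a2 b2 c2 d2) a1 p q wB := by
    rcases hB with hB | ⟨hB1, B, hB2, hB3, hB4⟩
    · exact Or.inl (by omega)
    · exact Or.inr ⟨by omega, B, by omega, hB3, inl hB4⟩
  -- walls for the upper part
  obtain ⟨s2, hs2, hs2', B2⟩ : ∃ s2, wB ≤ s2 ∧ b1 ≤ s2 ∧
      BotOK (W ∪ Rect a1 b1 c1 d1) a2 p q s2 := by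
    rcases lt_or_ge wB b1 with h3 | h3
    · refine ⟨b1, h3.le, le_rfl, Or.inr ⟨by omega, a1, by omega, by omega, ?_⟩⟩
      rintro ⟨s, t⟩ hst
      rw [mem_Rect] at hst
      exact Or.inr (mem_Rect.mpr (by omega))
    · rcases hB with hB | ⟨hB1, B, hB2, hB3, hB4⟩
      · omega
      · exact ⟨wB, le_rfl, h3, Or.inr ⟨by omega, B, by omega, hB3, inl hB4⟩⟩
  have T2 : TopOK (W ∪ Rect a1 b1 c1 d1) b2 p q wT := by
    rcases hT with hT | ⟨hT1, T, hT2, hT3, hT4⟩
    · exact Or.inl (by omega)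
    · exact Or.inr ⟨by omega, T, by omega, hT3, inl hT4⟩
  have wB1 : a1 - 3 ≤ wB := by
    rcases hB with hB | ⟨hB1, _⟩ <;> omega
  have wT1 : wT ≤ b2 + 3 := by
    rcases hT with hT | ⟨hT1, _⟩ <;> omega
  have e1 := gen_bound hBd i1 hA1 hh1 hc1 hpq hd1 T1 B1 (by omega)
  have e2 := gen_bound hBd i2 hA2 hh2 hc2 hpq hd2 T2 B2 (by omega)
  have e3 : (if 2 ≤ t1 - wB - 5 then lev (t1 - wB - 5) else 0) +
      (if 2 ≤ wT - s2 - 5 then lev (wT - s2 - 5) else 0) ≤ lev (wT - wB - 5) := by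
    unfold lev
    split_ifs <;> omega
  generalize (if 2 ≤ t1 - wB - 5 then lev (t1 - wB - 5) else 0) = L1 at *
  generalize (if 2 ≤ wT - s2 - 5 then lev (wT - s2 - 5) else 0) = L2 at *
  have e4 := mul_le_mul_of_nonneg_right e3 (show (0 : ℤ) ≤ q - p + 1 by omega)
  nlinarith

/-- splitting an interval of columns at finitely many places -/
theorem split_at (A : Finset (ℤ × ℤ)) (M K : ℤ) (hK : 0 ≤ K) (bs : List ℤ) : ∀ p q : ℤ, p ≤ q →
    (∀ p' q' : ℤ, p ≤ p' → p' ≤ q' → q' ≤ q → (∀ b ∈ bs, q' < b ∨ b ≤ p') →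
      3 * (cnt A p' q' : ℤ) ≤ M * (q' - p' + 1) + K) →
    3 * (cnt A p q : ℤ) ≤ M * (q - p + 1) + K * 2 ^ bs.length := by
  induction bs with
  | nil =>
    intro p q hpq H
    have := H p q le_rfl hpq le_rfl (by simp)
    simpa using this
  | cons b bs ih =>
    intro p q hpq H
    rw [List.length_cons, pow_succ]
    have hpos : (0 : ℤ) ≤ K * 2 ^ bs.length := by positivity
    by_cases hb : p < b ∧ b ≤ q
    · have h1 := ih p (b - 1) (by omega) (fun p' q' h1 h2 h3 h4 => H p' q' h1 h2 (by omega) (by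
        intro b' hb'
        rcases List.mem_cons.mp hb' with rfl | h
        · left; omega
        · exact h4 b' h))
      have h2 := ih b q hb.2 (fun p' q' h1 h2 h3 h4 => H p' q' (by omega) h2 h3 (by
        intro b' hb'
        rcases List.mem_cons.mp hb' with rfl | h
        · right; omega
        · exact h4 b' h))
      have h3 := cnt_split A (p := p) (m := b) (q := q) hb.1.le (by omega)
      have h4 : (cnt A p q : ℤ) = cnt A p (b - 1) + cnt A b q := by exact_mod_cast h3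
      rw [h4]
      linarith
    · have h1 := ih p q hpq (fun p' q' h1 h2 h3 h4 => H p' q' h1 h2 h3 (by
        intro b' hb'
        rcases List.mem_cons.mp hb' with rfl | h
        · by_cases h5 : p < b'
          · left; omega
          · right; omega
        · exact h4 b' h))
      linarith

theorem cnt_zero {A : Finset (ℤ × ℤ)} {p q : ℤ} (h : ∀ v ∈ A, p ≤ v.2 → v.2 ≤ q → False) :
    cnt A p q = 0 := by
  unfold cnt
  rw [Finset.card_eq_zero, Finset.eq_empty_iff_forall_notMem]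
  intro v hv
  rw [Finset.mem_filter] at hv
  exact h v hv.1 hv.2.1 hv.2.2

theorem bd_step {h C : ℕ} (hBd : Bd h C) : Bd (h + 1) ((2 * C + 18) * 16) := by
  classical
  intro W A a b c d p q wT wB hind hA hh hcp hpq hqd hT hB hx
  have hindE : Ind ∅ A := hind.wall (Set.empty_subset _)
  have hwT : wT ≤ b + 3 := by rcases hT with hT | ⟨hT1, _⟩ <;> omega
  have hwB : a - 3 ≤ wB := by rcases hB with hB | ⟨hB1, _⟩ <;> omega
  have hab : a < b := by omega
  -- a minimal spanned rectangle of full height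
  let F : Finset (Finset (ℤ × ℤ)) := A.powerset.filter fun B => ∃ c' d' : ℤ, Sp B a b c' d'
  have hF : F.Nonempty := ⟨A, by
    simp only [F, Finset.mem_filter, Finset.mem_powerset]
    exact ⟨Finset.Subset.refl A, c, d, hA⟩⟩
  obtain ⟨Q, hQF, hmin⟩ := Finset.exists_min_image F Finset.card hF
  simp only [F, Finset.mem_filter, Finset.mem_powerset] at hQF hmin
  obtain ⟨hQA, c', d', hQ⟩ := hQF
  have hQ2 : 2 ≤ Q.card := by
    by_contra hcon
    have h1 := hQ.nonempty.card_pos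
    have h2 : Q.card = 1 := by omega
    obtain ⟨v, hv⟩ := Finset.card_eq_one.mp h2
    have h3 := hQ.eq
    rw [hv, (Sp.single v).eq] at h3
    have := rect_inj le_rfl le_rfl hQ.rows hQ.cols h3
    omega
  have hindQ : Ind W Q := hind.sub hQA
  obtain ⟨A1, A2, hdis, hun, a1, b1, c1, d1, a2, b2, c2, d2, hA1, hA2, hnf⟩ :=
    decomp (hindQ.wall (Set.empty_subset _)) hQ hQ2
  have h1Q : A1 ⊆ Q := by rw [← hun]; exact Finset.subset_union_left
  have h2Q : A2 ⊆ Q := by rw [← hun]; exact Finset.subset_union_right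
  have hr1 := hA1.rows
  have hr2 := hA2.rows
  have hcc1 := hA1.cols
  have hcc2 := hA2.cols
  obtain ⟨q1, q2, q3, q4⟩ : min a1 a2 = a ∧ max b1 b2 = b ∧ min c1 c2 = c' ∧ max d1 d2 = d' := by
    have h1 := hA1.union hA2 hnf
    have h2 := h1.eq
    rw [hun, hQ.eq] at h2
    have := rect_inj hQ.rows hQ.cols h1.rows h1.cols h2
    omega
  have hcardQ : A1.card + A2.card = Q.card := by
    rw [← hun, Finset.card_union_of_disjoint hdis]
  have n1 : ¬ (a1 = a ∧ b1 = b) := by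
    rintro ⟨rfl, rfl⟩
    have := hmin A1 ⟨h1Q.trans hQA, c1, d1, hA1⟩
    have := hA2.nonempty.card_pos
    omega
  have n2 : ¬ (a2 = a ∧ b2 = b) := by
    rintro ⟨rfl, rfl⟩
    have := hmin A2 ⟨h2Q.trans hQA, c2, d2, hA2⟩
    have := hA1.nonempty.card_pos
    omega
  have hC0 : (0 : ℤ) ≤ C := Int.natCast_nonneg C
  have hlev : 1 ≤ lev (wT - wB - 5) := by unfold lev; omega
  -- the sites in the columns of `Q`
  have inQ : ∀ v ∈ A, c' ≤ v.2 → v.2 ≤ d' → v ∈ Q := by
    intro v hv h1 h2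
    by_contra hvQ
    apply hind v hv
    have h3 : a ≤ v.1 ∧ v.1 ≤ b ∧ c ≤ v.2 ∧ v.2 ≤ d := hA.mem hv
    have h4 : v ∈ cl (Q : Set (ℤ × ℤ)) := by
      rw [hQ.eq]
      exact ⟨h3.1, h3.2.1, h1, h2⟩
    refine cl_mono ?_ h4
    intro u hu
    right
    simp only [Finset.coe_erase, Set.mem_sdiff, Set.mem_singleton_iff]
    exact ⟨hQA hu, fun e => hvQ (e ▸ hu)⟩
  have main : ∀ p' q' : ℤ, p ≤ p' → p' ≤ q' → q' ≤ q →
      (∀ b ∈ [c1, c2, d1 + 1, d2 + 1], q' < b ∨ b ≤ p') →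
      3 * (cnt A p' q' : ℤ) ≤ 2 * lev (wT - wB - 5) * (q' - p' + 1) + (2 * C + 18) := by
    intro p' q' hp' hpq' hq' hbs
    have s1 := hbs c1 (by simp)
    have s2 := hbs c2 (by simp)
    have s3 := hbs (d1 + 1) (by simp)
    have s4 := hbs (d2 + 1) (by simp)
    have hlin := mul_le_mul_of_nonneg_right hlev (show (0 : ℤ) ≤ q' - p' + 1 by omega)
    have hlen : (0 : ℤ) ≤ q' - p' + 1 := by omega
    by_cases r1 : d' < p'
    · have := line_right hindE hA hQ hQA r1 (show p' ≤ q' + 1 by omega)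
      nlinarith
    by_cases r2 : q' < c'
    · have := line_left hindE hA hQ hQA r2 (show p' ≤ q' + 1 by omega)
      nlinarith
    have hin : cnt A p' q' ≤ cnt A1 p' q' + cnt A2 p' q' := by
      have h1 : cnt A p' q' ≤ cnt (A1 ∪ A2) p' q' := by
        refine cnt_mono_set _ _ ?_
        intro v hv h2 h3
        rw [hun]
        exact inQ v hv (by omega) (by omega)
      refine h1.trans ?_
      unfold cnt
      rw [Finset.filter_union]
      exact Finset.card_union_le _ _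
    have hin' : (cnt A p' q' : ℤ) ≤ cnt A1 p' q' + cnt A2 p' q' := by exact_mod_cast hin
    obtain ⟨tT, htT, hT'⟩ := hT.mono (le_refl b) hp' hq'
    obtain ⟨tB, htB, hB'⟩ := hB.mono (le_refl a) hp' hq'
    have sub1 := sub_rect hQ hA1 h1Q
    have sub2 := sub_rect hQ hA2 h2Q
    have box1 : ∀ v ∈ A1, a1 ≤ v.1 ∧ v.1 ≤ b1 ∧ c1 ≤ v.2 ∧ v.2 ≤ d1 := fun v hv => hA1.mem hv
    have box2 : ∀ v ∈ A2, a2 ≤ v.1 ∧ v.1 ≤ b2 ∧ c2 ≤ v.2 ∧ v.2 ≤ d2 := fun v hv => hA2.mem hv
    by_cases o1 : c1 ≤ p' ∧ q' ≤ d1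
    · by_cases o2 : c2 ≤ p' ∧ q' ≤ d2
      · -- overlap
        have gap : ∀ {a b c d a' b' c' d' : ℤ}, ¬ Far (Rect a b c d) (Rect a' b' c' d') →
            a' - b ≤ 2 := by
          intro a b c d a' b' c' d' hf
          simp only [Far, not_forall, not_le] at hf
          obtain ⟨⟨u1, u2⟩, hu, ⟨v1, v2⟩, hv, huv⟩ := hf
          rw [mem_Rect] at hu hv
          simp only at huv
          have := neg_le_abs (u1 - v1)
          have := abs_nonneg (u2 - v2)
          omega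
        have hT0 : TopOK W b p' q' wT := by
          rcases hT with hT | ⟨hT1, T, hT2, hT3, hT4⟩
          · exact Or.inl hT
          · refine Or.inr ⟨hT1, T, hT2, hT3, ?_⟩
            rintro ⟨s, t⟩ hst
            rw [mem_Rect] at hst
            exact hT4 (mem_Rect.mpr (by omega))
        have hB0 : BotOK W a p' q' wB := by
          rcases hB with hB | ⟨hB1, B, hB2, hB3, hB4⟩
          · exact Or.inl hB
          · refine Or.inr ⟨hB1, B, hB2, hB3, ?_⟩
            rintro ⟨s, t⟩ hst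
            rw [mem_Rect] at hst
            exact hB4 (mem_Rect.mpr (by omega))
        by_cases ho : a1 = a
        · have h3 := overlap_bound hBd hindQ h1Q h2Q hdis hA1 hA2 (by omega) (by omega) ho
            (show b2 = b by omega) (by omega) (by omega) (gap hnf) o1.1 o2.1 o1.2 o2.2 hpq' hT0 hB0 hx
          linarith
        · have hnf' : ¬ Far (Rect a2 b2 c2 d2) (Rect a1 b1 c1 d1) := by
            intro hf
            apply hnf
            intro u hu v hv
            have := hf v hv u hu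
            rwa [abs_sub_comm, abs_sub_comm v.2 u.2] at this
          have h3 := overlap_bound hBd hindQ h2Q h1Q hdis.symm hA2 hA1 (by omega) (by omega)
            (show a2 = a by omega) (show b1 = b by omega) (by omega) (by omega) (gap hnf') o2.1 o1.1
            o2.2 o1.2 hpq' hT0 hB0 hx
          linarith
      · have z2 : cnt A2 p' q' = 0 := cnt_zero fun v hv h1 h2 => by
          have := box2 v hv
          omega
        obtain ⟨t1, ht1, hT1⟩ := hT.mono (show b1 ≤ b by omega) hp' hq'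
        obtain ⟨t2, ht2, hB1⟩ := hB.mono (show a ≤ a1 by omega) hp' hq'
        have h3 := single_bound (x := wT - wB - 5) hBd (hind.sub (h1Q.trans hQA)) hA1 (by omega)
          o1.1 hpq' o1.2 hT1 hB1 (by omega) hx
        rw [z2] at hin'
        push_cast at hin'
        linarith
    · have z1 : cnt A1 p' q' = 0 := cnt_zero fun v hv h1 h2 => by
        have := box1 v hv
        omega
      rw [z1] at hin'
      push_cast at hin'
      by_cases o2 : c2 ≤ p' ∧ q' ≤ d2
      · obtain ⟨t1, ht1, hT1⟩ := hT.mono (show b2 ≤ b by omega) hp' hq'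
        obtain ⟨t2, ht2, hB1⟩ := hB.mono (show a ≤ a2 by omega) hp' hq'
        have h3 := single_bound (x := wT - wB - 5) hBd (hind.sub (h2Q.trans hQA)) hA2 (by omega)
          o2.1 hpq' o2.2 hT1 hB1 (by omega) hx
        linarith
      · have z2 : cnt A2 p' q' = 0 := cnt_zero fun v hv h1 h2 => by
          have := box2 v hv
          omega
        rw [z2] at hin'
        push_cast at hin'
        have h0 : 0 ≤ lev (wT - wB - 5) * (q' - p' + 1) := mul_nonneg (by omega) hlen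
        have h0' : 2 * lev (wT - wB - 5) * (q' - p' + 1) =
            2 * (lev (wT - wB - 5) * (q' - p' + 1)) := by ring
        rw [h0']
        generalize lev (wT - wB - 5) * (q' - p' + 1) = X at *
        omega
  have h3 := split_at A (2 * lev (wT - wB - 5)) (2 * C + 18) (by omega)
    [c1, c2, d1 + 1, d2 + 1] p q hpq main
  simp only [List.length_cons, List.length_nil] at h3
  push_cast
  norm_num at h3
  linarith

theorem bd_all (h : ℕ) : ∃ C : ℕ, Bd h C := by
  induction h with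
  | zero =>
    refine ⟨0, ?_⟩
    intro W A a b c d p q wT wB _ hA hh
    have := hA.rows
    push_cast at hh
    omega
  | succ h ih =>
    obtain ⟨C, hC⟩ := ih
    exact ⟨_, bd_step hC⟩

/-- **Upper bound.** An independent set which spans a rectangle with `m ≥ 2` rows and `n` columns has
at most `(2/3) ⌊(m + 3) / 5⌋ n + O_m(1)` sites. -/
theorem upper (m : ℕ) (hm : 2 ≤ m) : ∃ C : ℕ, ∀ (n : ℕ) (A : Finset (ℤ × ℤ)), Ind ∅ A →
    Sp A 0 (m - 1) 0 (n - 1) → 3 * A.card ≤ 2 * ((m + 3) / 5) * n + C := by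
  obtain ⟨C, hC⟩ := bd_all m
  refine ⟨C, ?_⟩
  intro n A hind hA
  have hc := hA.cols
  have h1 := hC ∅ A 0 (m - 1) 0 (n - 1) 0 (n - 1) (m - 1 + 3) (0 - 3) hind hA (by omega) le_rfl hc
    le_rfl (Or.inl rfl) (Or.inl rfl) (by omega)
  have h2 : cnt A 0 (n - 1) = A.card := by
    unfold cnt
    congr 1
    rw [Finset.filter_eq_self]
    intro v hv
    have h3 : (0 : ℤ) ≤ v.1 ∧ v.1 ≤ m - 1 ∧ 0 ≤ v.2 ∧ v.2 ≤ n - 1 := hA.mem hv
    omega
  rw [h2] at h1
  have h4 : (m : ℤ) - 1 + 3 - (0 - 3) - 5 = m := by ring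
  have h5 : (n : ℤ) - 1 - 0 + 1 = n := by ring
  rw [h4, h5] at h1
  have h6 : lev (m : ℤ) = (((m + 3) / 5 : ℕ) : ℤ) := by
    unfold lev
    push_cast
    rfl
  rw [h6] at h1
  exact_mod_cast h1

end Pool.Agent.H86.Perc
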