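import Pool.Agent.H86.Perc.Close

/-!
Upper bound for independent spanning sets of thin rectangles.
-/

set_option autoImplicit false

namespace Pool.Agent.H86.Perc

open Pool.Agent.Q131.Perc

/-- number of sites of `A` in the columns `p..q` -/
def cnt (A : Finset (ℤ × ℤ)) (p q : ℤ) : ℕ := (A.filter fun v => p ≤ v.2 ∧ v.2 ≤ q).card

theorem cnt_split (A : Finset (ℤ × ℤ)) {p m q : ℤ} (h1 : p ≤ m) (h2 : m ≤ q + 1) :
    cnt A p q = cnt A p (m - 1) + cnt A m q := by
  classical
  unfold cnt
  rw [← Finset.card_union_of_disjoint]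
  · congr 1
    ext v
    simp only [Finset.mem_filter, Finset.mem_union]
    constructor
    · rintro ⟨h3, h4, h5⟩
      rcases lt_or_ge v.2 m with h | h
      · exact Or.inl ⟨h3, h4, by omega⟩
      · exact Or.inr ⟨h3, h, h5⟩
    · rintro (⟨h3, h4, h5⟩ | ⟨h3, h4, h5⟩)
      · exact ⟨h3, h4, by omega⟩
      · exact ⟨h3, by omega, h5⟩
  · rw [Finset.disjoint_left]
    intro v h3 h4
    simp only [Finset.mem_filter] at h3 h4
    omega

theorem cnt_mono_set {A B : Finset (ℤ × ℤ)} (p q : ℤ) (h : ∀ v ∈ A, p ≤ v.2 → v.2 ≤ q → v ∈ B) :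
    cnt A p q ≤ cnt B p q := by
  classical
  unfold cnt
  refine Finset.card_le_card ?_
  intro v hv
  simp only [Finset.mem_filter] at hv ⊢
  exact ⟨h v hv.1 hv.2.1 hv.2.2, hv.2⟩

/-- counting with windows of three columns -/
theorem count_window (n : ℕ) : ∀ (B : Finset (ℤ × ℤ)) (p : ℤ), (∀ v ∈ B, p ≤ v.2 ∧ v.2 < p + n) →
    (∀ j : ℤ, cnt B j (j + 2) ≤ 2) → 3 * B.card ≤ 2 * n + 4 := by
  classical
  induction n using Nat.strong_induction_on with
  | _ n ih =>
    intro B p h1 h2
    rcases Nat.eq_zero_or_pos n with h0 | h0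
    · subst h0
      have : B = ∅ := by
        rw [Finset.eq_empty_iff_forall_notMem]
        intro v hv
        have := h1 v hv
        push_cast at this
        omega
      rw [this]
      simp
    · rcases Nat.lt_or_ge n 4 with h3 | h3
      · have h4 : B.card ≤ cnt B p (p + 2) := by
          unfold cnt
          refine Finset.card_le_card ?_
          intro v hv
          have := h1 v hv
          rw [Finset.mem_filter]
          exact ⟨hv, by omega, by omega⟩
        have := h2 p
        omega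
      · have h4 := ih (n - 3) (by omega) (B.filter fun v => p + 3 ≤ v.2) (p + 3) (by
          intro v hv
          rw [Finset.mem_filter] at hv
          have := h1 v hv.1
          omega) (by
          intro j
          refine le_trans ?_ (h2 j)
          refine cnt_mono_set _ _ fun v hv _ _ => (Finset.mem_filter.mp hv).1)
        have h5 : B.card ≤ cnt B p (p + 2) + (B.filter fun v => p + 3 ≤ v.2).card := by
          unfold cnt
          rw [← Finset.card_union_of_disjoint]
          · refine Finset.card_le_card ?_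
            intro v hv
            have := h1 v hv
            simp only [Finset.mem_union, Finset.mem_filter]
            rcases lt_or_ge v.2 (p + 3) with h | h
            · exact Or.inl ⟨hv, by omega, by omega⟩
            · exact Or.inr ⟨hv, h⟩
          · rw [Finset.disjoint_left]
            intro v h6 h7
            simp only [Finset.mem_filter] at h6 h7
            omega
        have := h2 p
        omega

theorem cnt_window {A : Finset (ℤ × ℤ)} {p q : ℤ} (hpq : p ≤ q + 1)
    (h' : ∀ x ∈ A, ∀ y ∈ A, ∀ z ∈ A, x ≠ y → y ≠ z → x ≠ z → p ≤ x.2 → x.2 ≤ y.2 → y.2 ≤ z.2 →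
      z.2 ≤ q → z.2 ≤ x.2 + 2 → False) : 3 * (cnt A p q : ℤ) ≤ 2 * (q - p + 1) + 4 := by
  classical
  have h1 := count_window (q - p + 1).toNat (A.filter fun v => p ≤ v.2 ∧ v.2 ≤ q) p (by
    intro v hv
    rw [Finset.mem_filter] at hv
    omega) (by
    intro j
    by_contra hcon
    push Not at hcon
    unfold cnt at hcon
    obtain ⟨x, hx, y, hy, z, hz, hxy, hxz, hyz⟩ := Finset.two_lt_card.mp hcon
    simp only [Finset.mem_filter] at hx hy hz
    rcases le_total x.2 y.2 with h1 | h1 <;> rcases le_total y.2 z.2 with h2 | h2 <;>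
      rcases le_total x.2 z.2 with h3 | h3
    · exact h' x hx.1.1 y hy.1.1 z hz.1.1 hxy hyz hxz (by omega) h1 h2 (by omega) (by omega)
    · exact h' x hx.1.1 y hy.1.1 z hz.1.1 hxy hyz hxz (by omega) h1 h2 (by omega) (by omega)
    · exact h' x hx.1.1 z hz.1.1 y hy.1.1 hxz hyz.symm hxy (by omega) h3 h2 (by omega) (by omega)
    · exact h' z hz.1.1 x hx.1.1 y hy.1.1 hxz.symm hxy hyz.symm (by omega) h3 h1 (by omega)
        (by omega)
    · exact h' y hy.1.1 x hx.1.1 z hz.1.1 hxy.symm hxz hyz (by omega) h1 h3 (by omega) (by omega)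
    · exact h' y hy.1.1 z hz.1.1 x hx.1.1 hyz hxz.symm hxy.symm (by omega) h2 h3 (by omega)
        (by omega)
    · exact h' z hz.1.1 y hy.1.1 x hx.1.1 hyz.symm hxy.symm hxz.symm (by omega) h2 h1 (by omega)
        (by omega)
    · exact h' z hz.1.1 y hy.1.1 x hx.1.1 hyz.symm hxy.symm hxz.symm (by omega) h2 h1 (by omega)
        (by omega))
  have h2 : (cnt A p q : ℤ) = ((A.filter fun v => p ≤ v.2 ∧ v.2 ≤ q).card : ℤ) := rfl
  rw [h2]
  zify at h1
  rw [Int.toNat_of_nonneg (by omega)] at h1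
  exact h1

/-- a wall above the rows `..b` over the columns `p..q`, with lowest row `w`;
`w = b + 3` stands for the absence of a wall -/
def TopOK (W : Set (ℤ × ℤ)) (b p q w : ℤ) : Prop :=
  w = b + 3 ∨ (w ≤ b + 2 ∧ ∃ T, b ≤ T ∧ w ≤ T ∧ Rect w T p q ⊆ W)

/-- a wall below the rows `a..` over the columns `p..q`, with highest row `w`;
`w = a - 3` stands for the absence of a wall -/
def BotOK (W : Set (ℤ × ℤ)) (a p q w : ℤ) : Prop :=
  w = a - 3 ∨ (a - 2 ≤ w ∧ ∃ B, B ≤ a ∧ B ≤ w ∧ Rect B w p q ⊆ W)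

theorem TopOK.mono {W : Set (ℤ × ℤ)} {b p q w b' p' q' : ℤ} (h : TopOK W b p q w) (hb : b' ≤ b)
    (hp : p ≤ p') (hq : q' ≤ q) : ∃ w', w' ≤ w ∧ TopOK W b' p' q' w' := by
  rcases h with h | ⟨h1, T, h2, h3, h4⟩
  · exact ⟨b' + 3, by omega, Or.inl rfl⟩
  · by_cases hw : w ≤ b' + 2
    · refine ⟨w, le_rfl, Or.inr ⟨hw, T, by omega, h3, ?_⟩⟩
      rintro ⟨x, y⟩ hxy
      rw [mem_Rect] at hxy
      exact h4 (mem_Rect.mpr (by omega))
    · exact ⟨b' + 3, by omega, Or.inl rfl⟩

theorem BotOK.mono {W : Set (ℤ × ℤ)} {a p q w a' p' q' : ℤ} (h : BotOK W a p q w) (ha : a ≤ a')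
    (hp : p ≤ p') (hq : q' ≤ q) : ∃ w', w ≤ w' ∧ BotOK W a' p' q' w' := by
  rcases h with h | ⟨h1, B, h2, h3, h4⟩
  · exact ⟨a' - 3, by omega, Or.inl rfl⟩
  · by_cases hw : a' - 2 ≤ w
    · refine ⟨w, le_rfl, Or.inr ⟨hw, B, by omega, h3, ?_⟩⟩
      rintro ⟨x, y⟩ hxy
      rw [mem_Rect] at hxy
      exact h4 (mem_Rect.mpr (by omega))
    · exact ⟨a' - 3, by omega, Or.inl rfl⟩

/-- two sites which touch the same top wall -/
theorem touch_top {W : Set (ℤ × ℤ)} {A : Finset (ℤ × ℤ)} (hind : Ind W A) {w T p q : ℤ}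
    (hw : w ≤ T) (hpq : p ≤ q) (hW : Rect w T p q ⊆ W) {z z' : ℤ × ℤ} (hz : z ∈ A) (hz' : z' ∈ A)
    (hne : z ≠ z') (h1 : p ≤ z.2) (h2 : z.2 ≤ q) (h1' : p ≤ z'.2) (h2' : z'.2 ≤ q)
    (h3 : w - 2 ≤ z.1) (h4 : z.1 ≤ T) (h3' : w - 2 ≤ z'.1) (h4' : z'.1 ≤ T) : False := by
  have main : ∀ z z' : ℤ × ℤ, z ∈ A → z' ∈ A → z ≠ z' → p ≤ z.2 → z.2 ≤ q → p ≤ z'.2 →
      z'.2 ≤ q → w - 2 ≤ z'.1 → z.1 ≤ T → z'.1 ≤ z.1 → False := by
    intro z z' hz hz' hne h1 h2 h1' h2' h3' h4 h5
    apply hind z hz
    set K := cl (W ∪ ((A.erase z : Finset (ℤ × ℤ)) : Set (ℤ × ℤ)))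
    have hK : Closed K := closed_cl _
    have hWK : Rect w T p q ⊆ K := fun v hv => subset_cl _ (Or.inl (hW hv))
    have hzK : (z'.1, z'.2) ∈ K := subset_cl _ (Or.inr (by simp [hz', hne.symm]))
    have := grow hK hw hpq hWK hzK (by omega)
    have h6 : (z.1, z.2) ∈ K := this (mem_Rect.mpr (by omega))
    exact h6
  rcases le_total z'.1 z.1 with h | h
  · exact main z z' hz hz' hne h1 h2 h1' h2' h3' h4 h
  · exact main z' z hz' hz hne.symm h1' h2' h1 h2 h3 h4' h

/-- two sites which touch the same bottom wall -/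
theorem touch_bot {W : Set (ℤ × ℤ)} {A : Finset (ℤ × ℤ)} (hind : Ind W A) {w B p q : ℤ}
    (hw : B ≤ w) (hpq : p ≤ q) (hW : Rect B w p q ⊆ W) {z z' : ℤ × ℤ} (hz : z ∈ A) (hz' : z' ∈ A)
    (hne : z ≠ z') (h1 : p ≤ z.2) (h2 : z.2 ≤ q) (h1' : p ≤ z'.2) (h2' : z'.2 ≤ q)
    (h3 : z.1 ≤ w + 2) (h4 : B ≤ z.1) (h3' : z'.1 ≤ w + 2) (h4' : B ≤ z'.1) : False := by
  have main : ∀ z z' : ℤ × ℤ, z ∈ A → z' ∈ A → z ≠ z' → p ≤ z.2 → z.2 ≤ q → p ≤ z'.2 →
      z'.2 ≤ q → z'.1 ≤ w + 2 → B ≤ z.1 → z.1 ≤ z'.1 → False := by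
    intro z z' hz hz' hne h1 h2 h1' h2' h3' h4 h5
    apply hind z hz
    set K := cl (W ∪ ((A.erase z : Finset (ℤ × ℤ)) : Set (ℤ × ℤ)))
    have hK : Closed K := closed_cl _
    have hWK : Rect B w p q ⊆ K := fun v hv => subset_cl _ (Or.inl (hW hv))
    have hzK : (z'.1, z'.2) ∈ K := subset_cl _ (Or.inr (by simp [hz', hne.symm]))
    have := grow hK hw hpq hWK hzK (by omega)
    have h6 : (z.1, z.2) ∈ K := this (mem_Rect.mpr (by omega))
    exact h6
  rcases le_total z.1 z'.1 with h | h
  · exact main z z' hz hz' hne h1 h2 h1' h2' h3' h4 h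
  · exact main z' z hz' hz hne.symm h1' h2' h1 h2 h3 h4' h

/-- no generated site close to the middle row -/
theorem near_row {W : Set (ℤ × ℤ)} {A : Finset (ℤ × ℤ)} {a b p q wT wB : ℤ} (hind : Ind W A)
    (hpq : p ≤ q) (hT : TopOK W b p q wT) (hB : BotOK W a p q wB) (hx : wT - wB - 5 = 1)
    {y l : ℤ × ℤ} (hy : y ∈ A) (hl : l ∈ A) (hne : l ≠ y) (hy1 : y.1 = wB + 3) (hl1 : l.1 = wB + 3)
    (hyp : p ≤ y.2) (hyq : y.2 ≤ q) (hlp : p ≤ l.2) (hlq : l.2 ≤ q) {v : ℤ × ℤ}
    (hv : v ∈ cl (W ∪ ((A.erase y : Finset (ℤ × ℤ)) : Set (ℤ × ℤ)))) (hvp : p ≤ v.2)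
    (hvq : v.2 ≤ q) (hva : a ≤ v.1) (hvb : v.1 ≤ b) (h1 : wB + 1 ≤ v.1) (h2 : v.1 ≤ wB + 5)
    (h3 : v.1 ≠ wB + 3) : False := by
  have hyK := hind y hy
  set K := cl (W ∪ ((A.erase y : Finset (ℤ × ℤ)) : Set (ℤ × ℤ)))
  have hK : Closed K := closed_cl _
  have hlK : (l.1, l.2) ∈ K := subset_cl _ (Or.inr (by simp [hl, hne]))
  have hvK : (v.1, v.2) ∈ K := hv
  apply hyK
  rcases lt_or_gt_of_ne h3 with h | h
  · -- below the middle row
    rcases hB with hB | ⟨hB1, B, hB2, hB3, hB4⟩
    · omega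
    · have hWK : Rect B wB p q ⊆ K := fun u hu => subset_cl _ (Or.inl (hB4 hu))
      have g1 := grow hK hB3 hpq hWK hvK (by omega)
      have g2 := grow hK (by omega) (by omega) g1 hlK (by omega)
      have h6 : (y.1, y.2) ∈ K := g2 (mem_Rect.mpr (by omega))
      exact h6
  · rcases hT with hT | ⟨hT1, T, hT2, hT3, hT4⟩
    · omega
    · have hWK : Rect wT T p q ⊆ K := fun u hu => subset_cl _ (Or.inl (hT4 hu))
      have g1 := grow hK hT3 hpq hWK hvK (by omega)
      have g2 := grow hK (by omega) (by omega) g1 hlK (by omega)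
      have h6 : (y.1, y.2) ∈ K := g2 (mem_Rect.mpr (by omega))
      exact h6

/-- at most three sites between two close walls -/
theorem small {W : Set (ℤ × ℤ)} {A : Finset (ℤ × ℤ)} {a b c d p q wT wB : ℤ} (hind : Ind W A)
    (hA : Sp A a b c d) (hpq : p ≤ q) (hT : TopOK W b p q wT)
    (hB : BotOK W a p q wB) (hx : wT - wB - 5 ≤ 1) (hh : a < b ∨ wT - wB - 5 ≤ 0) :
    cnt A p q ≤ 3 := by
  classical
  unfold cnt
  set F := A.filter fun v => p ≤ v.2 ∧ v.2 ≤ q with hF
  set F1 := F.filter fun v => wT - 2 ≤ v.1 with hF1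
  set F2 := F.filter fun v => v.1 ≤ wB + 2 with hF2
  set F3 := F.filter fun v => wB + 3 ≤ v.1 ∧ v.1 ≤ wT - 3 with hF3
  have hcov : F ⊆ (F1 ∪ F2) ∪ F3 := by
    intro v hv
    simp only [hF1, hF2, hF3, Finset.mem_union, Finset.mem_filter, hv, true_and]
    omega
  have hmemF : ∀ v ∈ F, v ∈ A ∧ p ≤ v.2 ∧ v.2 ≤ q ∧ a ≤ v.1 ∧ v.1 ≤ b := by
    intro v hv
    rw [hF, Finset.mem_filter] at hv
    have := hA.mem hv.1
    exact ⟨hv.1, hv.2.1, hv.2.2, this.1, this.2.1⟩
  have c1 : F1.card ≤ 1 := by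
    rw [Finset.card_le_one]
    intro z hz z' hz'
    by_contra hne
    rw [hF1, Finset.mem_filter] at hz hz'
    obtain ⟨h1, h2, h3, h4, h5⟩ := hmemF z hz.1
    obtain ⟨h1', h2', h3', h4', h5'⟩ := hmemF z' hz'.1
    rcases hT with hT | ⟨hT1, T, hT2, hT3, hT4⟩
    · omega
    · exact touch_top hind hT3 hpq hT4 h1 h1' hne h2 h3 h2' h3' hz.2 (by omega) hz'.2 (by omega)
  have c2 : F2.card ≤ 1 := by
    rw [Finset.card_le_one]
    intro z hz z' hz'
    by_contra hne
    rw [hF2, Finset.mem_filter] at hz hz'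
    obtain ⟨h1, h2, h3, h4, h5⟩ := hmemF z hz.1
    obtain ⟨h1', h2', h3', h4', h5'⟩ := hmemF z' hz'.1
    rcases hB with hB | ⟨hB1, B, hB2, hB3, hB4⟩
    · omega
    · exact touch_bot hind hB3 hpq hB4 h1 h1' hne h2 h3 h2' h3' hz.2 (by omega) hz'.2 (by omega)
  have hcard : F.card ≤ F1.card + F2.card + F3.card :=
    (Finset.card_le_card hcov).trans ((Finset.card_union_le _ _).trans
      (Nat.add_le_add_right (Finset.card_union_le _ _) _))
  by_cases hx0 : wT - wB - 5 ≤ 0
  · have : F3.card = 0 := by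
      rw [Finset.card_eq_zero, Finset.eq_empty_iff_forall_notMem]
      intro v hv
      rw [hF3, Finset.mem_filter] at hv
      omega
    omega
  · have hx1 : wT - wB - 5 = 1 := by omega
    have hab : a < b := by omega
    by_cases h3 : F3.card ≤ 1
    · omega
    · push Not at h3
      have hmem3 : ∀ v ∈ F3, v ∈ A ∧ p ≤ v.2 ∧ v.2 ≤ q ∧ v.1 = wB + 3 := by
        intro v hv
        rw [hF3, Finset.mem_filter] at hv
        obtain ⟨h1, h2, h4, h5, h6⟩ := hmemF v hv.1
        exact ⟨h1, h2, h4, by omega⟩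
      obtain ⟨y, hy, l, hl, hyl⟩ := Finset.one_lt_card.mp h3
      obtain ⟨y1, y2, y3, y4⟩ := hmem3 y hy
      obtain ⟨l1, l2, l3, l4⟩ := hmem3 l hl
      have d1 : F1.card = 0 := by
        rw [Finset.card_eq_zero, Finset.eq_empty_iff_forall_notMem]
        intro z hz
        rw [hF1, Finset.mem_filter] at hz
        obtain ⟨z1, z2, z3, z4, z5⟩ := hmemF z hz.1
        have hzy : z ≠ y := by
          intro e; rw [e] at hz; omega
        rcases hT with hT | ⟨hT1, T, hT2, hT3, hT4⟩
        · omega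
        · by_cases hzw : z.1 ≤ wB + 5
          · exact near_row hind hpq (Or.inr ⟨hT1, T, hT2, hT3, hT4⟩) hB hx1 y1 l1 hyl.symm y4 l4 y2
              y3 l2 l3 (v := z) (subset_cl _ (Or.inr (by simp [z1, hzy]))) z2 z3 z4 z5 (by omega)
              hzw (by omega)
          · exact hind z z1 (subset_cl _ (Or.inl (hT4 (by
              have : (z.1, z.2) ∈ Rect wT T p q := mem_Rect.mpr (by omega)
              exact this))))
      have d2 : F2.card = 0 := by
        rw [Finset.card_eq_zero, Finset.eq_empty_iff_forall_notMem]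
        intro z hz
        rw [hF2, Finset.mem_filter] at hz
        obtain ⟨z1, z2, z3, z4, z5⟩ := hmemF z hz.1
        have hzy : z ≠ y := by
          intro e; rw [e] at hz; omega
        rcases hB with hB | ⟨hB1, B, hB2, hB3, hB4⟩
        · omega
        · by_cases hzw : wB + 1 ≤ z.1
          · exact near_row hind hpq hT (Or.inr ⟨hB1, B, hB2, hB3, hB4⟩) hx1 y1 l1 hyl.symm y4 l4 y2
              y3 l2 l3 (v := z) (subset_cl _ (Or.inr (by simp [z1, hzy]))) z2 z3 z4 z5 hzw
              (by omega) (by omega)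
          · exact hind z z1 (subset_cl _ (Or.inl (hB4 (by
              have : (z.1, z.2) ∈ Rect B wB p q := mem_Rect.mpr (by omega)
              exact this))))
      have d3 : F3.card ≤ 2 := by
        by_contra hcon
        push Not at hcon
        -- a middle site
        have middle : ∀ l y r : ℤ × ℤ, l ∈ F3 → y ∈ F3 → r ∈ F3 → l.2 < y.2 → y.2 < r.2 → False := by
          intro l y r hl hy hr hly hyr
          obtain ⟨y1, y2, y3, y4⟩ := hmem3 y hy
          obtain ⟨l1, l2, l3, l4⟩ := hmem3 l hl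
          obtain ⟨r1, r2, r3, r4⟩ := hmem3 r hr
          have hly' : l ≠ y := by intro e; rw [e] at hly; omega
          have hry' : r ≠ y := by intro e; rw [e] at hyr; omega
          set K := cl ((A.erase y : Finset (ℤ × ℤ)) : Set (ℤ × ℤ)) with hKdef
          have hKK : K ⊆ cl (W ∪ ((A.erase y : Finset (ℤ × ℤ)) : Set (ℤ × ℤ))) :=
            cl_mono fun v hv => Or.inr hv
          have hKR : K ⊆ Rect a b c d := by
            rw [← hA.eq]
            exact cl_mono (by exact_mod_cast Finset.erase_subset _ _)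
          have hno : ∀ i j : ℤ, (i, j) ∈ K → p ≤ j → j ≤ q → wB + 1 ≤ i → i ≤ wB + 5 →
              i ≠ wB + 3 → False := by
            intro i j hij h1 h2 h4 h5 h6
            have := hKR hij
            rw [mem_Rect] at this
            exact near_row hind hpq hT hB hx1 y1 l1 hly' y4 l4 y2 y3 l2 l3 (v := (i, j)) (hKK hij)
              h1 h2 this.1 this.2.1 h4 h5 h6
          have hlK : (wB + 3, l.2) ∈ K := by
            apply subset_cl
            have : (wB + 3, l.2) = l := by rw [← l4]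
            rw [this]
            simp [l1, hly']
          have hrK : (wB + 3, r.2) ∈ K := by
            apply subset_cl
            have : (wB + 3, r.2) = r := by rw [← r4]
            rw [this]
            simp [r1, hry']
          have hS : Closed (K ∪ Rect (wB + 3) (wB + 3) l.2 r.2) := by
            rintro ⟨u1, u2⟩ ⟨v1, v2⟩ ⟨w1, w2⟩ h1 h2 hne hu hw
            have key : ∀ u1 u2 w1 w2 : ℤ, Adj (u1, u2) (v1, v2) → Adj (w1, w2) (v1, v2) →
                (u1, u2) ≠ (w1, w2) → (u1, u2) ∉ K → (u1, u2) ∈ Rect (wB + 3) (wB + 3) l.2 r.2 →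
                (w1, w2) ∈ K ∪ Rect (wB + 3) (wB + 3) l.2 r.2 →
                (v1, v2) ∈ K ∪ Rect (wB + 3) (wB + 3) l.2 r.2 := by
              intro u1 u2 w1 w2 h1 h2 hne hu hu' hw
              rw [mem_Rect] at hu'
              have hul : u2 ≠ l.2 := by
                intro e
                apply hu
                have e2 : u1 = wB + 3 := by omega
                rw [e, e2]
                exact hlK
              have hur : u2 ≠ r.2 := by
                intro e
                apply hu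
                have e2 : u1 = wB + 3 := by omega
                rw [e, e2]
                exact hrK
              by_cases hv : v1 = wB + 3
              · right
                rw [mem_Rect]
                simp only [Adj] at h1
                omega
              · exfalso
                simp only [Adj, ne_eq, Prod.mk.injEq] at h1 h2 hne
                rcases hw with hw | hw
                · exact hno w1 w2 hw (by omega) (by omega) (by omega) (by omega) (by omega)
                · rw [mem_Rect] at hw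
                  omega
            by_cases hu' : (u1, u2) ∈ K
            · by_cases hw' : (w1, w2) ∈ K
              · exact Or.inl (closed_cl _ _ _ _ h1 h2 hne hu' hw')
              · have hwR : (w1, w2) ∈ Rect (wB + 3) (wB + 3) l.2 r.2 := by
                  rcases hw with h | h
                  · exact absurd h hw'
                  · exact h
                exact key w1 w2 u1 u2 h2 h1 hne.symm hw' hwR (Or.inl hu')
            · have huR : (u1, u2) ∈ Rect (wB + 3) (wB + 3) l.2 r.2 := by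
                rcases hu with h | h
                · exact absurd h hu'
                · exact h
              exact key u1 u2 w1 w2 h1 h2 hne hu' huR hw
          have hAS : Rect a b c d ⊆ K ∪ Rect (wB + 3) (wB + 3) l.2 r.2 := by
            rw [← hA.eq]
            refine cl_min hS ?_
            intro v hv
            by_cases hvy : v = y
            · right
              rw [hvy]
              have : (y.1, y.2) ∈ Rect (wB + 3) (wB + 3) l.2 r.2 := mem_Rect.mpr (by omega)
              exact this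
            · left
              apply subset_cl
              simp only [Finset.coe_erase, Set.mem_sdiff, Set.mem_singleton_iff]
              exact ⟨hv, hvy⟩
          have hyR := hA.mem y1
          have hyR' : a ≤ y.1 ∧ y.1 ≤ b ∧ c ≤ y.2 ∧ y.2 ≤ d := hyR
          obtain ⟨i, hi1, hi2, hi3⟩ : ∃ i, a ≤ i ∧ i ≤ b ∧ (i = wB + 4 ∨ i = wB + 2) := by
            rcases lt_or_ge y.1 b with h | h
            · exact ⟨wB + 4, by omega, by omega, Or.inl rfl⟩
            · exact ⟨wB + 2, by omega, by omega, Or.inr rfl⟩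
          have h5 := hAS (mem_Rect.mpr ⟨hi1, hi2, hyR'.2.2.1, hyR'.2.2.2⟩ : (i, y.2) ∈ Rect a b c d)
          rcases h5 with h5 | h5
          · exact hno i y.2 h5 y2 y3 (by omega) (by omega) (by omega)
          · rw [mem_Rect] at h5
            omega
        obtain ⟨u, hu, v, hv, w, hw, huv, huw, hvw⟩ := Finset.two_lt_card.mp hcon
        have ne2 : ∀ s t : ℤ × ℤ, s ∈ F3 → t ∈ F3 → s ≠ t → s.2 ≠ t.2 := by
          intro s t hs ht hne e
          apply hne
          obtain ⟨-, -, -, s4⟩ := hmem3 s hs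
          obtain ⟨-, -, -, t4⟩ := hmem3 t ht
          exact Prod.ext (by rw [s4, t4]) e
        have e1 := ne2 u v hu hv huv
        have e2 := ne2 u w hu hw huw
        have e3 := ne2 v w hv hw hvw
        rcases lt_or_gt_of_ne e1 with g1 | g1 <;> rcases lt_or_gt_of_ne e2 with g2 | g2 <;>
          rcases lt_or_gt_of_ne e3 with g3 | g3
        · exact middle u v w hu hv hw g1 g3
        · exact middle u w v hu hw hv g2 g3
        · omega
        · exact middle w u v hw hu hv g2 g1
        · exact middle v u w hv hu hw g1 g2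
        · omega
        · exact middle v w u hv hw hu g3 g2
        · exact middle w v u hw hv hu g3 g1
      omega

end Pool.Agent.H86.Perc
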